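import Pool.Agent.Lib.MP_bd3808_ag.Mg.G001

/-!
# TASK ChiStrong
-/

set_option autoImplicit false

noncomputable section

open CategoryTheory CategoryTheory.Limits CategoryTheory.Pretriangulated

namespace BO

universe w v u

variable (k : Type w) [Field k] {C : Type u} [Category.{v} C] [Preadditive C] [Linear k C]
  [HasZeroObject C] [HasShift C ℤ] [∀ n : ℤ, (shiftFunctor C n).Additive]
  [∀ n : ℤ, Functor.Linear k (shiftFunctor C n)] [Pretriangulated C]
  {σ : C ⥤ C} [σ.CommShift ℤ] [σ.Additive] [σ.Linear k] [σ.Full] [σ.Faithful]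

/-- If there are no higher Homs, then the Euler form is the class of the automorphism of `Hom(X,Y)`.

PROOF. Only `n = 0` contributes (`finsum_eq_single`); `Hom(X,Y[0]) ≃ Hom(X,Y)` (composition with `(shiftFunctorZero C ℤ).hom.app`),
`Functor.commShiftIso_zero`, `kcls_conj`. -/
theorem chi_strong (X Y : EqObj σ) (h : ∀ n : ℤ, n ≠ 0 → ∀ f : X.X ⟶ Y.X⟦n⟧, f = 0)
    (e : (X.X ⟶ Y.X) ≃ₗ[k] (X.X ⟶ Y.X)) (he : ∀ f, e f ≫ Y.φ.hom = X.φ.hom ≫ σ.map f) :
    chi k σ X Y = kcls e := by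
  unfold chi
  rw [finsum_eq_single _ 0 fun n hn => ?_]
  · rw [Int.negOnePow_zero, one_smul]
    let L : (X.X ⟶ Y.X⟦(0 : ℤ)⟧) ≃ₗ[k] (X.X ⟶ Y.X) :=
      { toFun := fun f => f ≫ (shiftFunctorZero C ℤ).hom.app Y.X
        invFun := fun f => f ≫ (shiftFunctorZero C ℤ).inv.app Y.X
        map_add' := fun f g => by simp
        map_smul' := fun c f => by simp
        left_inv := fun f => by simp
        right_inv := fun f => by simp }
    refine kcls_conj (act k σ X Y 0) e L fun x => ?_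
    show (X.φ.hom ≫ σ.map x ≫ (σ.commShiftIso (0 : ℤ)).hom.app Y.X ≫ Y.φ.inv⟦(0 : ℤ)⟧') ≫
      (shiftFunctorZero C ℤ).hom.app Y.X = e (x ≫ (shiftFunctorZero C ℤ).hom.app Y.X)
    have h1 : ∀ f, e f = X.φ.hom ≫ σ.map f ≫ Y.φ.inv := fun f => by
      rw [← Category.assoc, ← he, Category.assoc, Iso.hom_inv_id, Category.comp_id]
    rw [h1, Functor.commShiftIso_zero]
    have hn := (shiftFunctorZero C ℤ).hom.naturality Y.φ.inv
    simp only [Functor.id_obj, Functor.id_map] at hn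
    simp [hn]
  · have : Subsingleton (X.X ⟶ Y.X⟦n⟧) := ⟨fun a b => by rw [h n hn a, h n hn b]⟩
    rw [kcls_of_subsingleton, smul_zero]

end BO
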