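import Mathlib

/-!
# TASK DbA: the derived functor of an exact equivalence

`F.mapDerivedCategory` is induced by `F.mapHomologicalComplex` (`F.mapDerivedCategoryFactors : Q ⋙ F.mapDerivedCategory ≅ F.mapHomologicalComplex _ ⋙ Q`).
`mapDerivedComp_iso`: both functors `F.mapDerivedCategory ⋙ G.mapDerivedCategory` and `𝟭` of `DerivedCategory A` are lifts along the localization functor
`DerivedCategory.Q` of functors isomorphic by `e` (`NatTrans.mapHomologicalComplex`, `mapHomologicalComplex` of a composite; componentwise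
isomorphism of complexes, `HomologicalComplex.Hom.isoOfComponents`): `Localization.liftNatIso` (only the existence for objects is needed for
`mapDerived_obj`). `isEquivalence_mapDerived`: from the two natural isomorphisms (`Functor.IsEquivalence.mk'`).
-/

set_option autoImplicit false

noncomputable section

open CategoryTheory CategoryTheory.Limits

namespace BO

universe w₁ w₂ v₁ v₂ u₁ u₂ v u

variable {A : Type u₁} [Category.{v₁} A] [Abelian A] [HasDerivedCategory.{w₁} A]
  {A' : Type u₂} [Category.{v₂} A'] [Abelian A'] [HasDerivedCategory.{w₂} A']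
  (F : A ⥤ A') [F.Additive] [PreservesFiniteLimits F] [PreservesFiniteColimits F]
  (G : A' ⥤ A) [G.Additive] [PreservesFiniteLimits G] [PreservesFiniteColimits G]

private def DbA_compIso (e : F ⋙ G ≅ 𝟭 A) :
    F.mapHomologicalComplex (ComplexShape.up ℤ) ⋙ G.mapHomologicalComplex (ComplexShape.up ℤ) ≅
      𝟭 (CochainComplex A ℤ) :=
  NatIso.ofComponents
    (fun K => HomologicalComplex.Hom.isoOfComponents (fun i => e.app (K.X i)) (by
      intro i j _
      exact (e.hom.naturality (K.d i j)).symm))
    (by
      intro K L f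
      apply HomologicalComplex.hom_ext
      intro i
      exact e.hom.naturality (f.f i))

theorem mapDerivedComp_iso (e : F ⋙ G ≅ 𝟭 A) :
    Nonempty (F.mapDerivedCategory ⋙ G.mapDerivedCategory ≅ 𝟭 (DerivedCategory A)) := by
  let i1 : DerivedCategory.Q (C := A) ⋙ (F.mapDerivedCategory ⋙ G.mapDerivedCategory) ≅
      DerivedCategory.Q (C := A) ⋙ 𝟭 (DerivedCategory A) :=
    (Functor.associator _ _ _).symm ≪≫
      Functor.isoWhiskerRight F.mapDerivedCategoryFactors G.mapDerivedCategory ≪≫
      Functor.associator _ _ _ ≪≫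
      Functor.isoWhiskerLeft _ G.mapDerivedCategoryFactors ≪≫
      (Functor.associator _ _ _).symm ≪≫
      Functor.isoWhiskerRight (DbA_compIso F G e) DerivedCategory.Q ≪≫
      Functor.leftUnitor _ ≪≫ (Functor.rightUnitor _).symm
  letI h1 : Localization.Lifting (DerivedCategory.Q (C := A))
      (HomologicalComplex.quasiIso A (ComplexShape.up ℤ))
      (DerivedCategory.Q (C := A) ⋙ (F.mapDerivedCategory ⋙ G.mapDerivedCategory))
      (F.mapDerivedCategory ⋙ G.mapDerivedCategory) := ⟨Iso.refl _⟩
  letI h2 : Localization.Lifting (DerivedCategory.Q (C := A))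
      (HomologicalComplex.quasiIso A (ComplexShape.up ℤ))
      (DerivedCategory.Q (C := A) ⋙ 𝟭 (DerivedCategory A)) (𝟭 (DerivedCategory A)) :=
    ⟨Iso.refl _⟩
  exact ⟨Localization.liftNatIso (DerivedCategory.Q (C := A))
    (HomologicalComplex.quasiIso A (ComplexShape.up ℤ)) _ _ _ _ i1⟩

theorem isEquivalence_mapDerived (e : F ⋙ G ≅ 𝟭 A) (e' : G ⋙ F ≅ 𝟭 A') :
    F.mapDerivedCategory.IsEquivalence := by
  obtain ⟨i⟩ := mapDerivedComp_iso F G e
  obtain ⟨i'⟩ := mapDerivedComp_iso G F e'
  exact (CategoryTheory.Equivalence.mk F.mapDerivedCategory G.mapDerivedCategory i.symm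
    i').isEquivalence_functor

/-- The derived functor preserves bounded objects: `TStructure.t` is defined by strictly bounded representatives. -/
theorem mapDerived_bounded (X : DerivedCategory A)
    (h : (DerivedCategory.TStructure.t (C := A)).bounded X) :
    (DerivedCategory.TStructure.t (C := A')).bounded (F.mapDerivedCategory.obj X) := by
  obtain ⟨⟨n, ⟨K, e, hK⟩⟩, ⟨m, ⟨L, e', hL⟩⟩⟩ := h
  refine ⟨⟨n, ⟨(F.mapHomologicalComplex (ComplexShape.up ℤ)).obj K,
    F.mapDerivedCategory.mapIso e ≪≫ F.mapDerivedCategoryFactors.app K, ?_⟩⟩,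
    ⟨m, ⟨(F.mapHomologicalComplex (ComplexShape.up ℤ)).obj L,
    F.mapDerivedCategory.mapIso e' ≪≫ F.mapDerivedCategoryFactors.app L, ?_⟩⟩⟩
  · haveI := hK
    exact HomologicalComplex.map_isStrictlySupported _ _ _
  · haveI := hL
    exact HomologicalComplex.map_isStrictlySupported _ _ _

end BO
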