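import Mathlib

/-!
# TASK KB0: the bounded homotopy category `K^b(A)`

`shiftLinearFull`: `P.ι` is faithful, linear and commutes with shifts (`(P.ι.commShiftIso n)`), so linearity of the shift of `C` gives it
(`P.ι.map_injective`, naturality of `commShiftIso`). `bdd_isTriangulated`: copy the instances for `HomotopyCategory.plus` in
`Mathlib/Algebra/Homology/HomotopyCategory/Plus.lean` (`ContainsZero`, `IsStableUnderShift ℤ`, `IsTriangulatedClosed₃`,
`of_isTriangulatedClosed₃`), adding the upper bounds (`isStrictlyLE_shift`, mapping cone: `mappingCone.isZero_X_iff`).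
-/

set_option autoImplicit false

noncomputable section

open CategoryTheory CategoryTheory.Limits CategoryTheory.Pretriangulated

namespace BO

universe w v u

section shiftLinear

variable (k : Type w) [Field k] {C : Type u} [Category.{v} C] [Preadditive C] [Linear k C]
  [HasShift C ℤ] [∀ n : ℤ, (shiftFunctor C n).Additive]
  [∀ n : ℤ, Functor.Linear k (shiftFunctor C n)] (P : ObjectProperty C) [P.IsStableUnderShift ℤ]

/-- The shifts of a full subcategory are linear. -/
instance shiftLinearFull (n : ℤ) : Functor.Linear k (shiftFunctor P.FullSubcategory n) where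
  map_smul {X Y} f r := by
    apply P.ι.map_injective
    have h1 := (P.ι.commShiftIso n).hom.naturality (r • f)
    have h2 := (P.ι.commShiftIso n).hom.naturality f
    rw [← cancel_mono ((P.ι.commShiftIso n).hom.app Y)]
    refine h1.trans ?_
    have h3 : (P.ι ⋙ shiftFunctor C n).map (r • f) = r • (P.ι ⋙ shiftFunctor C n).map f := by
      rw [Functor.map_smul]
    rw [h3, Linear.comp_smul, ← h2, Functor.map_smul, Linear.smul_comp]
    rfl

end shiftLinear

variable (A : Type u) [Category.{v} A] [Preadditive A]

/-- Bounded complexes. -/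
def bddC : ObjectProperty (CochainComplex A ℤ) :=
  fun K => ∃ a b : ℤ, K.IsStrictlyGE a ∧ K.IsStrictlyLE b

/-- The objects of the homotopy category which are bounded complexes. -/
def bdd : ObjectProperty (HomotopyCategory A (ComplexShape.up ℤ)) :=
  (bddC A).strictMap (HomotopyCategory.quotient _ _)

variable {A} in
private lemma KB0_iff (K : CochainComplex A ℤ) :
    bdd A ((HomotopyCategory.quotient _ _).obj K) ↔ bddC A K := by
  refine ⟨?_, fun h => ⟨_, h⟩⟩
  simp only [bdd, ObjectProperty.strictMap_iff]
  rintro ⟨L, h, hL⟩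
  obtain rfl : L = K := congr_arg Quotient.as hL
  exact h

private lemma KB0_LE {A : Type u} [Category.{v} A] [Preadditive A] [HasBinaryBiproducts A]
    {K L : CochainComplex A ℤ} (f : K ⟶ L)
    (n₁ n₂ n : ℤ) [K.IsStrictlyLE n₁] [L.IsStrictlyLE n₂] (hn₁ : n₁ ≤ n + 1)
    (hn₂ : n₂ ≤ n) :
    (CochainComplex.mappingCone f).IsStrictlyLE n := by
  rw [CochainComplex.isStrictlyLE_iff]
  intro i hi
  simp only [CochainComplex.mappingCone.isZero_X_iff]
  exact ⟨K.isZero_of_isStrictlyLE n₁ _ (by lia), L.isZero_of_isStrictlyLE n₂ _ (by lia)⟩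

variable [HasZeroObject A] [HasBinaryBiproducts A]

open scoped ZeroObject in
omit [HasBinaryBiproducts A] in
private lemma KB0_zero : (bdd A).ContainsZero where
  exists_zero :=
    ⟨(HomotopyCategory.quotient _ _).obj 0, Functor.map_isZero _ (isZero_zero _), by
      rw [KB0_iff]
      exact ⟨0, 0, inferInstance, inferInstance⟩⟩

omit [HasZeroObject A] [HasBinaryBiproducts A] in
private lemma KB0_shift : (bdd A).IsStableUnderShift ℤ where
  isStableUnderShiftBy n :=
    { le_shift K hK := by
        obtain ⟨K : CochainComplex _ _, rfl⟩ := K.quotient_obj_surjective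
        rw [KB0_iff] at hK
        obtain ⟨a, b, _, _⟩ := hK
        rw [ObjectProperty.prop_shift_iff, HomotopyCategory.shift_quotient_obj,
          KB0_iff]
        exact ⟨a - n, b - n, K.isStrictlyGE_shift a n (a - n) (by lia),
          K.isStrictlyLE_shift b n (b - n) (by lia)⟩ }

set_option backward.defeqAttrib.useBackward true in
set_option backward.isDefEq.respectTransparency false in
private lemma KB0_closed : (bdd A).IsTriangulatedClosed₃ where
  ext₃' T hT h₁ h₂ := by
    obtain ⟨n₁, m₁, _, _⟩ : (bddC A) T.obj₁.as := by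
      rwa [← KB0_iff]
    obtain ⟨n₂, m₂, _, _⟩ : (bddC A) T.obj₂.as := by
      rwa [← KB0_iff]
    obtain ⟨f : T.obj₁.as ⟶ T.obj₂.as, hf⟩ :=
      (HomotopyCategory.quotient _ _).map_surjective T.mor₁
    refine ⟨_, ?_,
      ⟨Triangle.π₃.mapIso (isoTriangleOfIso₁₂ T _ hT
        (HomotopyCategory.mappingCone_triangleh_distinguished f)
        (Iso.refl _) (Iso.refl _) ?_)⟩⟩
    · dsimp
      rw [KB0_iff]
      exact ⟨min (n₁ - 1) n₂, max m₁ m₂,
        CochainComplex.isStrictlyGE_mappingCone f n₁ n₂ _ (by simp) (by simp),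
        KB0_LE f m₁ m₂ _ (by have := le_max_left m₁ m₂; lia) (le_max_right _ _)⟩
    · simp [hf]

instance bdd_isTriangulated : (bdd A).IsTriangulated := by
  have h1 : (bdd A).ContainsZero := KB0_zero A
  have h2 : (bdd A).IsStableUnderShift ℤ := KB0_shift A
  have h3 : (bdd A).IsTriangulatedClosed₃ := KB0_closed A
  exact { toIsTriangulatedClosed₂ := .of_isTriangulatedClosed₃ }

/-- The homotopy category `K^b(A)` of bounded complexes of objects of `A`. -/
abbrev Kb := (bdd A).FullSubcategory

end BO
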