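import Pool.Agent.Lib.MP_bd3808_ag.Mg.G016

/-!
# Transport of the statement along an equivalence
-/

set_option autoImplicit false

noncomputable section

open CategoryTheory CategoryTheory.Limits CategoryTheory.Pretriangulated

namespace BO

universe w v u v' u'

variable (k : Type w) [Field k] {C : Type u} [Category.{v} C] [Preadditive C] [Linear k C]
  [HasZeroObject C] [HasShift C ℤ] [∀ n : ℤ, (shiftFunctor C n).Additive]
  [∀ n : ℤ, Functor.Linear k (shiftFunctor C n)] [Pretriangulated C]
  {C' : Type u'} [Category.{v'} C'] [Preadditive C'] [Linear k C']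
  [HasZeroObject C'] [HasShift C' ℤ] [∀ n : ℤ, (shiftFunctor C' n).Additive]
  [∀ n : ℤ, Functor.Linear k (shiftFunctor C' n)] [Pretriangulated C']

/-- The map on orbits given by an equivalence. -/
def Orbits.map (F : C ⥤ C') [F.CommShift ℤ] [F.Additive] [Functor.Linear k F] [F.IsTriangulated]
    [F.IsEquivalence] (N : ℕ) : Orbits k C N → Orbits k C' N :=
  Quot.map (fun s => s.map k F) fun _ _ h => Step.map k F h

/-- Infinitely many orbits for `C` give infinitely many for every equivalent `C'`. -/
theorem infinite_of_equivalence (F : C ⥤ C') [F.CommShift ℤ] [F.Additive] [Functor.Linear k F]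
    [F.IsTriangulated] [F.IsEquivalence] (G : C' ⥤ C) [G.CommShift ℤ] [G.Additive]
    [Functor.Linear k G] [G.IsTriangulated] [G.IsEquivalence]
    (e : ∀ X : C, Nonempty (G.obj (F.obj X) ≅ X)) (N : ℕ) (h : Infinite (Orbits k C N)) :
    Infinite (Orbits k C' N) := by
  refine Infinite.of_surjective (Orbits.map k G N) ?_
  rintro ⟨s⟩
  refine ⟨Quot.mk _ (s.map k F), ?_⟩
  refine Quot.sound (Step.shift (fun _ => 0) fun i => ?_)
  obtain ⟨f⟩ := e (s.obj i)
  exact ⟨f.symm ≪≫ ((shiftFunctorZero C ℤ).app _).symm⟩

end BO
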