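import Pool.Agent.Lib.MP_bd3808_ag.BO.DbA
import Pool.Agent.Lib.MP_bd3808_ag.BO.KB0
import Pool.Agent.Lib.MP_bd3808_ag.BO.TrB

/-!
# TASK DbB: the bounded derived category and equivalences

`Db.map F` is the restriction of `F.mapDerivedCategory`. Instances `Additive`, `Linear`: `ObjectProperty.lift` of additive/linear functors. Equivalence:
full, faithful (from `isEquivalence_mapDerived`), essentially surjective (`Db.map F` of `Db.map G X` is isomorphic to `X`).
-/

set_option autoImplicit false

noncomputable section

open CategoryTheory CategoryTheory.Limits CategoryTheory.Pretriangulated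

namespace BO

universe w w₁ w₂ v₁ v₂ u₁ u₂

variable (A : Type u₁) [Category.{v₁} A] [Abelian A] [HasDerivedCategory.{w₁} A]

/-- The bounded derived category of an abelian category. -/
abbrev Db := (DerivedCategory.TStructure.t (C := A)).bounded.FullSubcategory

variable {A} {A' : Type u₂} [Category.{v₂} A'] [Abelian A'] [HasDerivedCategory.{w₂} A']
  (F : A ⥤ A') [F.Additive] [PreservesFiniteLimits F] [PreservesFiniteColimits F]
  (G : A' ⥤ A) [G.Additive] [PreservesFiniteLimits G] [PreservesFiniteColimits G]

/-- The functor `D^b(A) ⥤ D^b(A')` given by an exact functor. -/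
def Db.map : Db A ⥤ Db A' :=
  (DerivedCategory.TStructure.t (C := A')).bounded.lift
    ((DerivedCategory.TStructure.t (C := A)).bounded.ι ⋙ F.mapDerivedCategory)
    (fun X => mapDerived_bounded F X.obj X.property)

instance : (Db.map F).CommShift ℤ := by
  unfold Db.map
  infer_instance

instance : (Db.map F).IsTriangulated := by
  unfold Db.map
  infer_instance

instance : (Db.map F).Additive := inferInstance

instance (k : Type w) [Field k] [Linear k A] [Linear k A'] [Functor.Linear k F] :
    Functor.Linear k (Db.map F) := by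
  refine ⟨fun {X Y} f r => ?_⟩
  apply ObjectProperty.hom_ext
  exact F.mapDerivedCategory.map_smul r f.hom

theorem isEquivalence_Db_map (e : F ⋙ G ≅ 𝟭 A) (e' : G ⋙ F ≅ 𝟭 A') :
    (Db.map F).IsEquivalence := by
  have : F.mapDerivedCategory.IsEquivalence := isEquivalence_mapDerived F G e e'
  have : (Db.map F).Full := by
    unfold Db.map
    infer_instance
  have : (Db.map F).Faithful := by
    unfold Db.map
    infer_instance
  have : (Db.map F).EssSurj := by
    refine ⟨fun Y => ⟨(Db.map G).obj Y, ?_⟩⟩
    obtain ⟨i⟩ := mapDerivedComp_iso G F e'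
    exact ⟨ObjectProperty.isoMk _ (i.app Y.obj)⟩
  exact {}

theorem Db_map_map (e : F ⋙ G ≅ 𝟭 A) (X : Db A) :
    Nonempty ((Db.map G).obj ((Db.map F).obj X) ≅ X) := by
  obtain ⟨i⟩ := mapDerivedComp_iso F G e
  exact ⟨ObjectProperty.isoMk _ (i.app X.obj)⟩

/-- Infinitely many orbits in `D^b(A)` give infinitely many orbits in `D^b(A')` for every `k`-linear
equivalence of abelian categories. -/
theorem infinite_orbits_of_equivalence (k : Type w) [Field k] [Linear k A] [Linear k A']
    (F : A ⥤ A') [F.Additive] [Functor.Linear k F] (G : A' ⥤ A) [G.Additive] [Functor.Linear k G]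
    (e : F ⋙ G ≅ 𝟭 A) (e' : G ⋙ F ≅ 𝟭 A') (N : ℕ) (h : Infinite (Orbits k (Db A) N)) :
    Infinite (Orbits k (Db A') N) := by
  have : F.IsEquivalence := Functor.IsEquivalence.mk' G e.symm e'
  have : G.IsEquivalence := Functor.IsEquivalence.mk' F e'.symm e
  have := isEquivalence_Db_map F G e e'
  have := isEquivalence_Db_map G F e' e
  exact infinite_of_equivalence k (Db.map F) (Db.map G) (Db_map_map F G e) N h

end BO
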