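import Mathlib

/-!
# Full exceptional systems, mutations and braid orbits in a `k`-linear triangulated category
-/

set_option autoImplicit false

noncomputable section

open CategoryTheory CategoryTheory.Limits CategoryTheory.Pretriangulated

namespace BO

universe w v u

variable (k : Type w) [Field k] {C : Type u} [Category.{v} C] [Preadditive C] [Linear k C]
  [HasZeroObject C] [HasShift C ℤ] [∀ n : ℤ, (shiftFunctor C n).Additive] [Pretriangulated C]

/-- An object `E` is exceptional: `Hom(E,E) = k` and `Hom(E,E[n]) = 0` for `n ≠ 0`. -/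
structure IsExceptional (E : C) : Prop where
  end_eq : ∀ f : E ⟶ E, ∃! c : k, f = c • 𝟙 E
  ext_eq_zero : ∀ n : ℤ, n ≠ 0 → ∀ f : E ⟶ E⟦n⟧, f = 0

variable (C) in
/-- A full exceptional system with `N` members (an exceptional system of maximal size):
exceptional objects `obj 0, …, obj (N-1)` with `Hom(obj j, (obj i)[n]) = 0` for all `n` whenever `i < j`,
such that the smallest (strictly) full triangulated subcategory containing them is `C`. -/
structure ExcSystem (N : ℕ) where
  obj : Fin N → C
  exc : ∀ i, IsExceptional k (obj i)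
  orth : ∀ i j, i < j → ∀ (n : ℤ) (f : obj j ⟶ (obj i)⟦n⟧), f = 0
  full : ∀ P : ObjectProperty C, P.IsTriangulated → P.IsClosedUnderIsomorphisms →
    (∀ i, P (obj i)) → ∀ X, P X

/-- A basis of `⊕ₙ Hom(E[n],F)`: finitely many morphisms `ev i : E[deg i] ⟶ F` such that for every
`n` the `ev i` with `deg i = n` form a basis of `Hom(E[n],F)`. -/
structure HomBasis (E F : C) where
  ι : Type
  [fin : Fintype ι]
  deg : ι → ℤ
  ev : ∀ i, E⟦deg i⟧ ⟶ F
  basis : ∀ n : ℤ, Function.Bijective fun c : {i // deg i = n} → k =>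
    ∑ i, c i • (eqToHom (by rw [i.2]) ≫ ev i.1 : E⟦n⟧ ⟶ F)

attribute [instance] HomBasis.fin

/-- `G = F⁺`: there is a distinguished triangle `G ⟶ ⊕ₙ Hom(E[n],F) ⊗ E[n] ⟶ F ⟶ G[1]` whose
second map is the evaluation map. -/
def IsMutation (E F G : C) : Prop :=
  ∃ (B : HomBasis k E F) (a : G ⟶ ⨁ fun i => E⟦B.deg i⟧) (c : F ⟶ G⟦(1 : ℤ)⟧),
    Triangle.mk a (biproduct.desc B.ev) c ∈ distTriang C

/-- `t` is obtained from `s` by a shift of the members (up to isomorphism), or by the generator
`(E,F) ↦ (F⁺,E)` of the braid group at the places `i, i+1` (up to isomorphism). -/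
inductive Step {N : ℕ} (s t : ExcSystem k C N) : Prop
  | shift (n : Fin N → ℤ) (h : ∀ i, Nonempty (t.obj i ≅ (s.obj i)⟦n i⟧)) : Step s t
  | mutate (i j : Fin N) (hij : (j : ℕ) = i + 1) (h1 : IsMutation k (s.obj i) (s.obj j) (t.obj i))
      (h2 : Nonempty (t.obj j ≅ s.obj i))
      (h3 : ∀ l, l ≠ i → l ≠ j → Nonempty (t.obj l ≅ s.obj l)) : Step s t

variable (C) in
/-- The set of orbits of the braid group on the full exceptional systems with `N` members, taken up
to isomorphisms and shifts of the members. -/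
def Orbits (N : ℕ) : Type _ := Quot (Step k (C := C) (N := N))

end BO
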