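import Pool.Agent.Lib.MP_bd3808_ag.BO.KBs

/-!
# TASK KBm: the functor `K^b(F)`

`bdd_map`: the image of a strictly bounded complex is strictly bounded. Instances: `(bdd A).ι ⋙ F.mapHomotopyCategory _` is additive, linear,
full and faithful (Mathlib: `HomotopyCategory.lean`, instances for `mapHomotopyCategory`), and `ObjectProperty.lift` inherits this.
`mapSingle`: `HomologicalComplex.singleMapHomologicalComplex F (ComplexShape.up ℤ) 0` (inverse) mapped by the quotient functor, `ObjectProperty.isoMk`
or `(bdd A).fullyFaithfulι.preimageIso`; naturality follows from that of `singleMapHomologicalComplex`.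
-/

set_option autoImplicit false

noncomputable section

open CategoryTheory CategoryTheory.Limits CategoryTheory.Pretriangulated

namespace BO

universe w v u

variable {A : Type u} [Category.{v} A] [Preadditive A] [HasZeroObject A] [HasBinaryBiproducts A]

section map

variable (F : A ⥤ A) [F.Additive]

theorem bdd_map (K : Kb A) :
    bdd A (((bdd A).ι ⋙ F.mapHomotopyCategory (ComplexShape.up ℤ)).obj K) := by
  obtain ⟨X, hX⟩ := K
  obtain ⟨K, a, b, ha, hb⟩ := hX
  refine ⟨(F.mapHomologicalComplex _).obj K, a, b, ?_, ?_⟩
  · exact inferInstanceAs (CochainComplex.IsStrictlyGE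
        ((F.mapHomologicalComplex _).obj K) a)
  · exact inferInstanceAs (CochainComplex.IsStrictlyLE
        ((F.mapHomologicalComplex _).obj K) b)

/-- The functor `K^b(F)`. -/
def Kb.map : Kb A ⥤ Kb A :=
  (bdd A).lift ((bdd A).ι ⋙ F.mapHomotopyCategory (ComplexShape.up ℤ)) (bdd_map F)

instance : (Kb.map F).CommShift ℤ := by
  unfold Kb.map
  infer_instance

instance : (Kb.map F).IsTriangulated := by
  unfold Kb.map
  infer_instance

instance : (Kb.map F).Additive where
  map_add {X Y f g} := by
    ext
    exact (F.mapHomotopyCategory (ComplexShape.up ℤ)).map_add (f := f.hom) (g := g.hom)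

instance (k : Type w) [Field k] [Linear k A] [Functor.Linear k F] :
    Functor.Linear k (Kb.map F) where
  map_smul {X Y} f r := by
    ext
    exact (F.mapHomotopyCategory (ComplexShape.up ℤ)).map_smul r f.hom

instance [F.Full] [F.Faithful] : (Kb.map F).Full where
  map_surjective f :=
    ⟨ObjectProperty.homMk ((F.mapHomotopyCategory _).preimage f.hom), by
      ext
      exact (F.mapHomotopyCategory _).map_preimage f.hom⟩

instance [F.Full] [F.Faithful] : (Kb.map F).Faithful where
  map_injective h := by
    ext
    exact (F.mapHomotopyCategory _).map_injective ((ObjectProperty.ι _).congr_map h)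

/-- `K^b(F)` on complexes concentrated in degree `0`. -/
def Kb.mapSingle (X : A) : (Kb.single A).obj (F.obj X) ≅ (Kb.map F).obj ((Kb.single A).obj X) :=
  (bdd A).fullyFaithfulι.preimageIso
    ((HomotopyCategory.quotient A (ComplexShape.up ℤ)).mapIso
      ((HomologicalComplex.singleMapHomologicalComplex F (ComplexShape.up ℤ) 0).symm.app X))

theorem Kb.mapSingle_naturality {X Y : A} (f : X ⟶ Y) :
    (Kb.single A).map (F.map f) ≫ (Kb.mapSingle F Y).hom =
      (Kb.mapSingle F X).hom ≫ (Kb.map F).map ((Kb.single A).map f) := by
  ext
  have h := (HomologicalComplex.singleMapHomologicalComplex F (ComplexShape.up ℤ) 0).inv.naturality f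
  have h2 := congrArg (fun φ => (HomotopyCategory.quotient A (ComplexShape.up ℤ)).map φ) h
  simp only [Functor.map_comp] at h2
  exact h2

end map

end BO
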