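import Pool.Agent.Lib.MP_bd3808_ag.BO.KBs

/-!
# TASK KBg: generation of `K^b(A)`

PROOF. Let `K` be a complex with `K.IsStrictlyGE a`, `K.IsStrictlyLE b`; induction on the number `(b - a).toNat` (if `b < a` the complex is zero; if
`a = b` it is isomorphic to `(single (K.X a))[-a]`). For `a < b` let `L` be the complex with `L.X i = K.X i` for `i > a` and `0` for `i ≤ a` (brutal
truncation; or use `HomologicalComplex.stupidTrunc` with `ComplexShape.embeddingUpIntGE (a+1)`), `i : L → K` the inclusion and `K → (K.X a)[-a]` the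
projection: a degreewise split short exact sequence, so a distinguished triangle in the homotopy category (`HomotopyCategory.DegreewiseSplit`,
`trianglehOfDegreewiseSplit_distinguished`). Alternatively: `K` is isomorphic to the mapping cone of the map
`(K.X a)[-a-1] → L` given by the differential. All three terms are bounded; the triangle is distinguished in `Kb A` (its image under `(bdd A).ι` is).
`P` is closed under isomorphisms: `IsTriangulatedClosed₂`.
-/

set_option autoImplicit false

noncomputable section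

open CategoryTheory CategoryTheory.Limits CategoryTheory.Pretriangulated

namespace BO

universe w v u

variable {A : Type u} [Category.{v} A] [Preadditive A] [HasZeroObject A] [HasBinaryBiproducts A]

namespace KBgAux

open ZeroObject

omit [HasBinaryBiproducts A]

/-- The object `K.X i`, or zero for `i = a`. -/
private def Z (K : CochainComplex A ℤ) (a i : ℤ) : A := if i = a then 0 else K.X i

private def s (K : CochainComplex A ℤ) (a i : ℤ) : Z K a i ⟶ K.X i :=
  if h : i = a then 0 else eqToHom (if_neg h)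

private def r (K : CochainComplex A ℤ) (a i : ℤ) : K.X i ⟶ Z K a i :=
  if h : i = a then 0 else eqToHom (if_neg h).symm

private theorem isZero (K : CochainComplex A ℤ) (a : ℤ) : IsZero (Z K a a) := by
  unfold Z
  rw [if_pos rfl]
  exact isZero_zero A

private theorem s_r (K : CochainComplex A ℤ) (a i : ℤ) : s K a i ≫ r K a i = 𝟙 _ := by
  by_cases h : i = a
  · subst h
    exact (isZero K i).eq_of_src _ _
  · unfold s r
    rw [dif_neg h, dif_neg h]
    simp

private theorem r_s (K : CochainComplex A ℤ) (a i : ℤ) (h : i ≠ a) : r K a i ≫ s K a i = 𝟙 _ := by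
  unfold s r
  rw [dif_neg h, dif_neg h]
  simp

/-- The brutal truncation. -/
private def L (K : CochainComplex A ℤ) (a : ℤ) (ha : ∀ i, K.d i a = 0) : CochainComplex A ℤ where
  X i := Z K a i
  d i j := s K a i ≫ K.d i j ≫ r K a j
  shape i j h := by rw [K.shape i j h, zero_comp, comp_zero]
  d_comp_d' i j k _ _ := by
    by_cases h : j = a
    · subst h
      rw [ha i, zero_comp, comp_zero, zero_comp]
    · simp only [Category.assoc]
      rw [reassoc_of% (r_s K a j h), reassoc_of% (K.d_comp_d i j k)]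
      simp

private def inc (K : CochainComplex A ℤ) (a : ℤ) (ha : ∀ i, K.d i a = 0) : L K a ha ⟶ K where
  f i := s K a i
  comm' i j _ := by
    change s K a i ≫ K.d i j = (s K a i ≫ K.d i j ≫ r K a j) ≫ s K a j
    by_cases h : j = a
    · subst h
      simp only [ha i, zero_comp, comp_zero]
    · simp only [Category.assoc]
      rw [r_s K a j h, Category.comp_id]

private def pr (K : CochainComplex A ℤ) (a : ℤ) (ha : ∀ i, K.d i a = 0) :
    K ⟶ (CochainComplex.singleFunctor A a).obj (K.X a) :=
  HomologicalComplex.mkHomToSingle (𝟙 (K.X a)) (fun i _ => by rw [ha i, zero_comp])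

/-- The degreewise split short exact sequence. -/
private def S (K : CochainComplex A ℤ) (a : ℤ) (ha : ∀ i, K.d i a = 0) :
    ShortComplex (CochainComplex A ℤ) :=
  ShortComplex.mk (inc K a ha) (pr K a ha) (by
    ext i
    by_cases h : i = a
    · subst h
      exact (isZero K i).eq_of_src _ _
    · exact (HomologicalComplex.isZero_single_obj_X _ a (K.X a) i h).eq_of_tgt _ _)

private def t (K : CochainComplex A ℤ) (a n : ℤ) :
    ((CochainComplex.singleFunctor A a).obj (K.X a)).X n ⟶ K.X n :=
  if h : n = a then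
      (HomologicalComplex.singleObjXIsoOfEq (ComplexShape.up ℤ) a (K.X a) n h).hom ≫
        eqToHom (by rw [h])
    else 0

private theorem t_self (K : CochainComplex A ℤ) (a : ℤ) :
    t K a a = (HomologicalComplex.singleObjXSelf (ComplexShape.up ℤ) a (K.X a)).hom := by
  unfold t
  rw [dif_pos rfl]
  simp only [eqToHom_refl]
  exact Category.comp_id _

private theorem pr_self (K : CochainComplex A ℤ) (a : ℤ) (ha : ∀ i, K.d i a = 0) :
    (pr K a ha).f a = (HomologicalComplex.singleObjXSelf (ComplexShape.up ℤ) a (K.X a)).inv := by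
  unfold pr
  refine (HomologicalComplex.mkHomToSingle_f _ _).trans ?_
  exact Category.id_comp _

private theorem t_pr (K : CochainComplex A ℤ) (a : ℤ) (ha : ∀ i, K.d i a = 0) (n : ℤ) :
    t K a n ≫ (pr K a ha).f n = 𝟙 _ := by
  by_cases h : n = a
  · subst h
    rw [t_self, pr_self]
    exact Iso.hom_inv_id _
  · exact (HomologicalComplex.isZero_single_obj_X (ComplexShape.up ℤ) a (K.X a) n h).eq_of_src _ _

private theorem rs_prt (K : CochainComplex A ℤ) (a : ℤ) (ha : ∀ i, K.d i a = 0) (n : ℤ) :
    r K a n ≫ s K a n + (pr K a ha).f n ≫ t K a n = 𝟙 _ := by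
  by_cases h : n = a
  · subst h
    rw [t_self, pr_self, (isZero K n).eq_of_tgt (r K n n) 0, zero_comp, zero_add]
    exact Iso.inv_hom_id _
  · rw [show t K a n = 0 from (HomologicalComplex.isZero_single_obj_X (ComplexShape.up ℤ) a (K.X a)
      n h).eq_of_src _ _, comp_zero, add_zero, r_s K a n h]

private def σ (K : CochainComplex A ℤ) (a : ℤ) (ha : ∀ i, K.d i a = 0) (n : ℤ) :
    ((S K a ha).map (HomologicalComplex.eval A _ n)).Splitting where
  r := r K a n
  s := t K a n
  f_r := s_r K a n
  s_g := t_pr K a ha n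
  id := rs_prt K a ha n

private theorem isZero' (K : CochainComplex A ℤ) (a i : ℤ) (h : IsZero (K.X i)) :
    IsZero (Z K a i) := by
  unfold Z
  split_ifs
  · exact isZero_zero A
  · exact h

end KBgAux

private theorem KBg_ext (P : ObjectProperty (Kb A)) (hP : P.IsTriangulated)
    (hP' : P.IsClosedUnderIsomorphisms)
    (T : Triangle (HomotopyCategory A (ComplexShape.up ℤ))) (hT : T ∈ distTriang _)
    (h₁ : bdd A T.obj₁) (h₂ : bdd A T.obj₂) (h₃ : bdd A T.obj₃)
    (p₁ : P ⟨T.obj₁, h₁⟩) (p₃ : P ⟨T.obj₃, h₃⟩) : P ⟨T.obj₂, h₂⟩ := by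
  let T' : Triangle (Kb A) := Triangle.mk (X := ⟨T.obj₁, h₁⟩) (Y := ⟨T.obj₂, h₂⟩)
    (Z := ⟨T.obj₃, h₃⟩) (ObjectProperty.homMk T.mor₁) (ObjectProperty.homMk T.mor₂)
    (ObjectProperty.homMk (T.mor₃ ≫ ((bdd A).ι.commShiftIso (1 : ℤ)).inv.app ⟨T.obj₁, h₁⟩))
  have hT' : T' ∈ distTriang (Kb A) := by
    change (bdd A).ι.mapTriangle.obj T' ∈ distTriang _
    refine isomorphic_distinguished _ hT _ (Triangle.isoMk _ _ (Iso.refl _) (Iso.refl _) (Iso.refl _)
      ?_ ?_ ?_)
    · exact (Category.comp_id _).trans (Category.id_comp _).symm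
    · exact (Category.comp_id _).trans (Category.id_comp _).symm
    · change ((T.mor₃ ≫ ((bdd A).ι.commShiftIso (1 : ℤ)).inv.app ⟨T.obj₁, h₁⟩) ≫
        ((bdd A).ι.commShiftIso (1 : ℤ)).hom.app ⟨T.obj₁, h₁⟩) ≫ (𝟙 T.obj₁)⟦(1 : ℤ)⟧' =
        𝟙 T.obj₃ ≫ T.mor₃
      simp
  exact P.ext_of_isTriangulatedClosed₂ T' hT' p₁ p₃

private theorem KBg_zero (P : ObjectProperty (Kb A)) (hP : P.IsTriangulated)
    (hP' : P.IsClosedUnderIsomorphisms) (K : Kb A) (h0 : IsZero K.obj) : P K := by
  refine P.prop_of_isZero ?_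
  rw [IsZero.iff_id_eq_zero]
  ext
  exact h0.eq_of_src _ _

private theorem KBg_single (P : ObjectProperty (Kb A)) (hP : P.IsTriangulated)
    (hP' : P.IsClosedUnderIsomorphisms) (h : ∀ X : A, P ((Kb.single A).obj X)) (X : A) (a : ℤ)
    (hX : bdd A ((HomotopyCategory.singleFunctor A a).obj X)) :
    P ⟨(HomotopyCategory.singleFunctor A a).obj X, hX⟩ := by
  let e : ((Kb.single A).obj X)⟦-a⟧ ≅ (⟨(HomotopyCategory.singleFunctor A a).obj X, hX⟩ : Kb A) :=
    (bdd A).fullyFaithfulι.preimageIso (((bdd A).ι.commShiftIso (-a)).app _ ≪≫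
      ((HomotopyCategory.singleFunctors A).shiftIso (-a) a 0 (by simp)).app X)
  exact P.prop_of_iso e (P.le_shift (-a) _ (h X))

private theorem KBg_main (P : ObjectProperty (Kb A)) (hP : P.IsTriangulated)
    (hP' : P.IsClosedUnderIsomorphisms) (h : ∀ X : A, P ((Kb.single A).obj X)) (n : ℕ) :
    ∀ (K : CochainComplex A ℤ) (a : ℤ) (_ : K.IsStrictlyGE a) (_ : K.IsStrictlyLE (a + n - 1))
      (hK : bdd A ((HomotopyCategory.quotient A (ComplexShape.up ℤ)).obj K)),
      P ⟨(HomotopyCategory.quotient A (ComplexShape.up ℤ)).obj K, hK⟩ := by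
  induction n with
  | zero =>
    intro K a ha hb hK
    refine KBg_zero P hP hP' _ (show IsZero ((HomotopyCategory.quotient A
      (ComplexShape.up ℤ)).obj K) from Functor.map_isZero _ ?_)
    rw [IsZero.iff_id_eq_zero]
    ext i
    by_cases hi : i < a
    · exact (K.isZero_of_isStrictlyGE a i hi).eq_of_src _ _
    · exact (K.isZero_of_isStrictlyLE (a + (0 : ℕ) - 1) i (by push_cast; lia)).eq_of_src _ _
  | succ n ih =>
    intro K a ha hb hK
    have hd : ∀ i, K.d i a = 0 := by
      intro i
      by_cases hi : i + 1 = a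
      · exact (K.isZero_of_isStrictlyGE a i (by lia)).eq_of_src _ _
      · exact K.shape _ _ hi
    have hL1 : (KBgAux.L K a hd).IsStrictlyGE (a + 1) := by
      rw [CochainComplex.isStrictlyGE_iff]
      intro i hi
      by_cases hia : i = a
      · subst hia
        exact KBgAux.isZero K i
      · exact KBgAux.isZero' K a i (K.isZero_of_isStrictlyGE a i (by lia))
    have hL2 : (KBgAux.L K a hd).IsStrictlyLE (a + 1 + n - 1) := by
      rw [CochainComplex.isStrictlyLE_iff]
      intro i hi
      exact KBgAux.isZero' K a i (K.isZero_of_isStrictlyLE (a + (n + 1 : ℕ) - 1) i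
        (by push_cast; lia))
    have hS1 : ((CochainComplex.singleFunctor A a).obj (K.X a)).IsStrictlyGE a := by
      rw [CochainComplex.isStrictlyGE_iff]
      intro i hi
      exact HomologicalComplex.isZero_single_obj_X (ComplexShape.up ℤ) a (K.X a) i (by lia)
    have hS2 : ((CochainComplex.singleFunctor A a).obj (K.X a)).IsStrictlyLE a := by
      rw [CochainComplex.isStrictlyLE_iff]
      intro i hi
      exact HomologicalComplex.isZero_single_obj_X (ComplexShape.up ℤ) a (K.X a) i (by lia)
    have h₁ : bdd A ((HomotopyCategory.quotient A (ComplexShape.up ℤ)).obj (KBgAux.L K a hd)) :=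
      ⟨_, _, _, hL1, hL2⟩
    have h₃ : bdd A ((HomotopyCategory.singleFunctor A a).obj (K.X a)) :=
      ObjectProperty.strictMap_obj _ _ ⟨_, _, hS1, hS2⟩
    exact KBg_ext P hP hP'
      (CochainComplex.trianglehOfDegreewiseSplit (KBgAux.S K a hd) (KBgAux.σ K a hd))
      ((HomotopyCategory.distinguished_iff_iso_trianglehOfDegreewiseSplit _).2
        ⟨_, _, ⟨Iso.refl _⟩⟩) h₁ hK h₃ (ih _ (a + 1) hL1 hL2 h₁)
      (KBg_single P hP hP' h (K.X a) a h₃)

/-- `K^b(A)` is generated by the objects of `A`. -/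
theorem Kb.generation (P : ObjectProperty (Kb A)) (hP : P.IsTriangulated)
    (hP' : P.IsClosedUnderIsomorphisms) (h : ∀ X : A, P ((Kb.single A).obj X)) (K : Kb A) :
    P K := by
  obtain ⟨X, hX⟩ := K
  obtain ⟨K, a, b, ha, hb⟩ := hX
  refine KBg_main P hP hP' h (b - a + 1).toNat K a ha ?_ _
  exact K.isStrictlyLE_of_le b _ (by lia)

end BO
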