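import Pool.Agent.Lib.MP_bd3808_ag.BO.KB0

/-!
# TASK KBs: the functor `A ⥤ K^b(A)`

`Full`, `Faithful`: `HomotopyCategory.singleFunctor A 0` is `CochainComplex.singleFunctor A 0 ⋙ quotient` (definitionally); the first is fully
faithful, the quotient is full; faithful: a homotopy between maps of complexes concentrated in degree `0` is zero (all its components
`X.X i ⟶ Y.X (i-1)` have a zero source or target), `HomotopyCategory.quotient_map_eq_zero_iff`. `ObjectProperty.lift` of a full/faithful
functor is full/faithful. `hom_single_eq_zero`: `Hom(single X, (single Y)[n])`: lift to a map of complexes; `(single Y)[n]` is concentrated in degree `-n`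
(`HomotopyCategory.singleFunctors.shiftIso`), so the map of complexes is zero.
-/

set_option autoImplicit false

noncomputable section

open CategoryTheory CategoryTheory.Limits CategoryTheory.Pretriangulated

namespace BO

universe w v u

variable (A : Type u) [Category.{v} A] [Preadditive A] [HasZeroObject A] [HasBinaryBiproducts A]

variable {A}

theorem bdd_single (X : A) : bdd A ((HomotopyCategory.singleFunctor A 0).obj X) :=
  ⟨(CochainComplex.singleFunctor A 0).obj X, ⟨0, 0, inferInstance, inferInstance⟩⟩

private instance KBs_full0 : (HomotopyCategory.singleFunctor A 0).Full :=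
  inferInstanceAs (CochainComplex.singleFunctor A 0 ⋙ HomotopyCategory.quotient A _).Full

private theorem KBs_faith {X Y : A}
    (f : (CochainComplex.singleFunctor A 0).obj X ⟶ (CochainComplex.singleFunctor A 0).obj Y)
    (h : (HomotopyCategory.quotient A (ComplexShape.up ℤ)).map f = 0) : f = 0 := by
  rw [HomotopyCategory.quotient_map_eq_zero_iff] at h
  obtain ⟨h⟩ := h
  ext i
  have h1 := h.comm i
  rw [h1]
  simp [dNext, prevD]

private instance KBs_faithful0 : (HomotopyCategory.singleFunctor A 0).Faithful where
  map_injective {X Y} f g h := by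
    apply (CochainComplex.singleFunctor A 0).map_injective
    rw [← sub_eq_zero]
    apply KBs_faith
    rw [Functor.map_sub]
    rw [sub_eq_zero]
    exact h

variable (A) in
/-- The functor `A ⥤ K^b(A)`, complexes concentrated in degree `0`. -/
def Kb.single : A ⥤ Kb A :=
  (bdd A).lift (HomotopyCategory.singleFunctor A 0) bdd_single

instance : (Kb.single A).Additive where
  map_add {X Y f g} := by
    apply (bdd A).ι.map_injective
    rw [(bdd A).ι.map_add]
    exact (HomotopyCategory.singleFunctor A 0).map_add

instance (k : Type w) [Field k] [Linear k A] : Functor.Linear k (Kb.single A) where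
  map_smul {X Y} f r := by
    apply (bdd A).ι.map_injective
    rw [Functor.Linear.map_smul (F := (bdd A).ι)]
    exact Functor.Linear.map_smul (F := HomotopyCategory.singleFunctor A 0) f r

instance : (Kb.single A).Full :=
  inferInstanceAs ((bdd A).lift (HomotopyCategory.singleFunctor A 0) bdd_single).Full

instance : (Kb.single A).Faithful :=
  inferInstanceAs ((bdd A).lift (HomotopyCategory.singleFunctor A 0) bdd_single).Faithful

theorem Kb.hom_single_eq_zero (X Y : A) (n : ℤ) (hn : n ≠ 0)
    (f : (Kb.single A).obj X ⟶ ((Kb.single A).obj Y)⟦n⟧) : f = 0 := by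
  apply (bdd A).ι.map_injective
  rw [Functor.map_zero]
  rw [← cancel_mono (((bdd A).ι.commShiftIso n).hom.app ((Kb.single A).obj Y))]
  rw [zero_comp]
  have h0 : n + (-n) = 0 := by omega
  have key : ∀ F : (HomotopyCategory.singleFunctor A 0).obj X ⟶
      ((HomotopyCategory.singleFunctor A 0).obj Y)⟦n⟧, F = 0 := by
    intro F
    let e : ((HomotopyCategory.singleFunctor A 0).obj Y)⟦n⟧ ≅
        (HomotopyCategory.singleFunctor A (-n)).obj Y :=
      ((HomotopyCategory.singleFunctors A).shiftIso n (-n) 0 h0).app Y
    obtain ⟨g, hg⟩ := (HomotopyCategory.quotient A (ComplexShape.up ℤ)).map_surjective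
      (X := (CochainComplex.singleFunctor A 0).obj X)
      (Y := (CochainComplex.singleFunctor A (-n)).obj Y) (F ≫ e.hom)
    have h1 : g = 0 := by
      ext i
      by_cases hi : i = 0
      · apply (HomologicalComplex.isZero_single_obj_X (ComplexShape.up ℤ) (-n) Y i
          (by omega)).eq_of_tgt
      · apply (HomologicalComplex.isZero_single_obj_X (ComplexShape.up ℤ) 0 X i hi).eq_of_src
    rw [h1, Functor.map_zero] at hg
    have h2 : F = (F ≫ e.hom) ≫ e.inv := by simp
    rw [h2]
    exact (congrArg (fun z => z ≫ e.inv) hg.symm).trans zero_comp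
  exact key _

end BO
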