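import Mathlib

/-!
# TASK MatL: the additive envelope `Mat_ D` of a `k`-linear category

Morphisms are matrices (`Mat_.hom_ext`, `Mat_.comp_apply`, `Mat_.add_apply`). `mat_induction`: `Mat_.isoBiproductEmbedding M` and induction on the
finite type `M.ι` (`Finite.induction_empty_option`; `⨁` over `Option ι` is `⨁ ι ⊞ _`), or directly on the matrix object.
-/

set_option autoImplicit false

noncomputable section

open CategoryTheory CategoryTheory.Limits

namespace BO

universe w v u

variable (D : Type u) [Category.{v} D] [Preadditive D]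

instance matBinary : HasBinaryBiproducts (Mat_ D) := hasBinaryBiproducts_of_finite_biproducts _

variable (k : Type w) [Field k] [Linear k D]

instance matLinear : Linear k (Mat_ D) where
  homModule M N := (Pi.module M.ι (fun i => ∀ j : N.ι, M.X i ⟶ N.X j) k)
  smul_comp M N K c f g := by
    ext i j
    change ∑ l : N.ι, (c • f i l) ≫ g l j = c • ∑ l : N.ι, f i l ≫ g l j
    rw [Finset.smul_sum]
    exact Finset.sum_congr rfl fun l _ => Linear.smul_comp _ _ _ _ _ _
  comp_smul M N K f c g := by
    ext i j
    change ∑ l : N.ι, f i l ≫ (c • g l j) = c • ∑ l : N.ι, f i l ≫ g l j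
    rw [Finset.smul_sum]
    exact Finset.sum_congr rfl fun l _ => Linear.comp_smul _ _ _ _ _ _

instance : Functor.Linear k (Mat_.embedding D) where
  map_smul _ _ := rfl

variable {D} (F : D ⥤ D) [F.Additive]

instance : F.mapMat_.Additive where
  map_add {M N f g} := by
    ext i j
    exact F.map_add

instance [Functor.Linear k F] : Functor.Linear k F.mapMat_ where
  map_smul {M N} f c := by
    ext i j
    exact Functor.Linear.map_smul (F := F) (f i j) c

instance [F.Full] [F.Faithful] : F.mapMat_.Full where
  map_surjective {M N} g := by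
    refine ⟨fun i j => F.preimage (g i j), ?_⟩
    ext i j
    exact F.map_preimage (g i j)

instance [F.Faithful] : F.mapMat_.Faithful where
  map_injective {M N f g} h := by
    ext i j
    exact F.map_injective (congr_fun (congr_fun h i) j)

/-- `mapMat_` on the objects of `D`. -/
def embMap (X : D) : (Mat_.embedding D).obj (F.obj X) ≅ F.mapMat_.obj ((Mat_.embedding D).obj X) :=
  Iso.refl _

theorem embMap_naturality {X Y : D} (f : X ⟶ Y) :
    (Mat_.embedding D).map (F.map f) ≫ (embMap F Y).hom =
      (embMap F X).hom ≫ F.mapMat_.map ((Mat_.embedding D).map f) := by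
  change (Mat_.embedding D).map (F.map f) ≫ 𝟙 _ = 𝟙 _ ≫ (Mat_.embedding D).map (F.map f)
  rw [Category.comp_id, Category.id_comp]

/-- A property of objects closed under isomorphisms and finite biproducts which contains the objects of
`D` contains all objects of `Mat_ D`. -/
theorem mat_induction (P : ObjectProperty (Mat_ D)) [P.IsClosedUnderIsomorphisms]
    (h : ∀ X : D, P ((Mat_.embedding D).obj X)) (h0 : ∀ X, IsZero X → P X)
    (hb : ∀ X Y : Mat_ D, P X → P Y → P (X ⊞ Y)) (M : Mat_ D) : P M := by
  have hz : HasZeroObject (Mat_ D) := hasZeroObject_of_hasFiniteBiproducts _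
  obtain ⟨Z, hZ⟩ := hz.zero
  have h1 : P.ContainsZero := ⟨⟨Z, hZ, h0 _ hZ⟩⟩
  have h2 : P.IsClosedUnderBinaryProducts := by
    refine ⟨?_⟩
    rintro X ⟨p⟩
    refine P.prop_of_iso ?_ (hb _ _ (p.prop_diag_obj (.mk .left)) (p.prop_diag_obj (.mk .right)))
    exact IsLimit.conePointUniqueUpToIso (BinaryBiproduct.isLimit _ _)
      ((IsLimit.postcomposeHomEquiv (diagramIsoPair p.diag) _).2 p.isLimit)
  have h3 : P.IsClosedUnderFiniteProducts := ObjectProperty.IsClosedUnderFiniteProducts.mk'
  have h4 : P (⨁ fun i => (Mat_.embedding D).obj (M.X i)) :=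
    P.prop_of_isLimit_fan (biproduct.isLimit _) fun i => h (M.X i)
  exact P.prop_of_iso (Mat_.isoBiproductEmbedding M).symm h4

end BO
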