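import Pool.Agent.Lib.MP_bd3808_ag.BO.QI1

/-!
# The braid orbits of `K^b` of an additive category
-/

set_option autoImplicit false

noncomputable section

open CategoryTheory CategoryTheory.Limits CategoryTheory.Pretriangulated

namespace BO

universe w v u

/-- The set of braid orbits of full exceptional systems with `N` members in the bounded homotopy
category `K^b(A)`. -/
def KbOrbits (k : Type w) [Field k] (A : Type u) [Category.{v} A] [Preadditive A] [Linear k A]
    [HasZeroObject A] [HasBinaryBiproducts A] (N : ℕ) : Type _ :=
  Orbits k (Kb A) N

/-- The set of braid orbits of full exceptional systems with `N` members in the bounded homotopy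
category of the additive envelope of `D`. -/
def MatOrbits (k : Type w) [Field k] (D : Type u) [Category.{v} D] [Preadditive D] [Linear k D]
    (N : ℕ) : Type _ :=
  KbOrbits k (Mat_ D) N

theorem infinite_MatOrbits (k : Type w) [Field k] (t : kˣ) (ht : ∀ n : ℤ, t ^ n = 1 → n = 0) :
    Infinite (MatOrbits k (QQ k) 24) :=
  infinite_orbits_Q k t ht

end BO
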