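import Pool.Agent.Lib.MP_bd3808_ag.BO.QS1

/-!
# TASK QS3: endomorphisms and the dimensions needed

`QH_self`: monomials of degree `0` are `1` (`D.1 + 2 D.2.1 + 3 D.2.2 ≥ 1` on all generators). Numbers: `QH 12 13`: `RY (1,0,0) = ⟨u₀,u₁⟩`. `QH 12 (18+j)`:
`RX` of degree `(1,2,-1), (2,2,-1)` (`0`), `(2,1,0), (3,1,0), (2,2,0), (3,2,0)`; `QH 13 (18+j)`: `(0,2,-1), (1,2,-1)` (`0`),
`(1,1,0), (2,1,0), (1,2,0), (2,2,0)`. For `D = (n,m,0)`: only `u₀,u₁,la,mu` occur, `RX D` has the basis `u₀^a u₁^b la^i mu^(m-i)`, `a + b = n + i`,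
`0 ≤ i ≤ m` (distinct monomials of `PP k`, `MvPolynomial.basisMonomials`), dimension `∑_{i ≤ m} (n+1+i)`.
-/

set_option autoImplicit false

noncomputable section

open CategoryTheory

namespace BO

universe w

variable (k : Type w) [Field k]

/-- A positive functional on degrees. -/
private def QS3_ht : Dg →+ ℤ where
  toFun D := D.1 + 2 * D.2.1 + 3 * D.2.2
  map_zero' := by simp
  map_add' D D' := by
    show (D.1 + D'.1) + 2 * (D.2.1 + D'.2.1) + 3 * (D.2.2 + D'.2.2) = _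
    ring

private theorem QS3_zero_of_deg (dg : Fin 8 → Dg) (hdg : ∀ i, 1 ≤ QS3_ht (dg i)) (e : Fin 8 → ℕ)
    (he : ∑ i, e i • dg i = 0) : ∀ i, e i = 0 := by
  have h1 : ∑ i, (e i : ℤ) * QS3_ht (dg i) = 0 := by
    have h2 := congrArg QS3_ht he
    rw [map_sum, map_zero] at h2
    rw [← h2]
    refine Finset.sum_congr rfl fun i _ => ?_
    rw [map_nsmul, nsmul_eq_mul]
  have h3 : ∀ i ∈ (Finset.univ : Finset (Fin 8)), 0 ≤ (e i : ℤ) * QS3_ht (dg i) := by
    intro i _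
    exact mul_nonneg (Int.natCast_nonneg _) (le_trans (by norm_num) (hdg i))
  have h4 := (Finset.sum_eq_zero_iff_of_nonneg h3).1 h1
  intro i
  have h5 := h4 i (Finset.mem_univ i)
  rcases mul_eq_zero.1 h5 with h | h
  · exact_mod_cast h
  · have := hdg i
    omega

private theorem QS3_RY_zero (x : PY k) (hx : x ∈ RY k 0) : ∃ c : k, x = c • (1 : PY k) := by
  have h1 : RY k 0 ≤ Submodule.span k {(1 : PY k)} := by
    unfold RY
    rw [Submodule.span_le]
    rintro y ⟨e, he, rfl⟩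
    have h2 := QS3_zero_of_deg ydeg (by decide) e he
    have h3 : ∏ i, (MvPolynomial.X i : PY k) ^ e i = 1 := by
      refine Finset.prod_eq_one fun i _ => ?_
      rw [h2 i, pow_zero]
    rw [h3]
    exact Submodule.mem_span_singleton_self _
  obtain ⟨c, hc⟩ := Submodule.mem_span_singleton.1 (h1 hx)
  exact ⟨c, hc.symm⟩

private theorem QS3_RX_zero (x : PP k) (hx : x ∈ RX k 0) : ∃ c : k, x = c • (1 : PP k) := by
  have h1 : RX k 0 ≤ Submodule.span k {(1 : PP k)} := by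
    unfold RX
    rw [Submodule.span_le]
    rintro y ⟨e, he, rfl⟩
    have h2 := QS3_zero_of_deg gdeg (by decide) e he
    have h3 : ∏ i, gen k i ^ e i = 1 := by
      refine Finset.prod_eq_one fun i _ => ?_
      rw [h2 i, pow_zero]
    rw [h3]
    exact Submodule.mem_span_singleton_self _
  obtain ⟨c, hc⟩ := Submodule.mem_span_singleton.1 (h1 hx)
  exact ⟨c, hc.symm⟩

/-- Comparison of degrees, coordinatewise. -/
private theorem QS3_coord (dg : Fin 8 → Dg) (e : Fin 8 → ℕ) (D : Dg)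
    (he : ∑ i, e i • dg i = D) :
    (∑ i, (e i : ℤ) * (dg i).1 = D.1) ∧ (∑ i, (e i : ℤ) * (dg i).2.1 = D.2.1) ∧
      (∑ i, (e i : ℤ) * (dg i).2.2 = D.2.2) := by
  subst he
  refine ⟨?_, ?_, ?_⟩
  · rw [Prod.fst_sum]
    exact Finset.sum_congr rfl fun i _ => by rw [Prod.smul_fst, nsmul_eq_mul]
  · rw [Prod.snd_sum, Prod.fst_sum]
    exact Finset.sum_congr rfl fun i _ => by rw [Prod.smul_snd, Prod.smul_fst, nsmul_eq_mul]
  · rw [Prod.snd_sum, Prod.snd_sum]
    exact Finset.sum_congr rfl fun i _ => by rw [Prod.smul_snd, Prod.smul_snd, nsmul_eq_mul]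

private theorem QS3_gcoord (e : Fin 8 → ℕ) (D : Dg) (he : ∑ i, e i • gdeg i = D) :
    ((e 0 : ℤ) + e 1 - e 2 + e 6 + e 7 = D.1) ∧ ((e 2 : ℤ) + e 3 - e 6 - e 7 = D.2.1) ∧
      ((e 4 : ℤ) + e 5 + e 6 + e 7 = D.2.2) := by
  obtain ⟨h1, h2, h3⟩ := QS3_coord gdeg e D he
  rw [Fin.sum_univ_eight] at h1 h2 h3
  simp only [gdeg, Matrix.cons_val] at h1 h2 h3
  refine ⟨by linarith, by linarith, by linarith⟩

private theorem QS3_of_gcoord (e : Fin 8 → ℕ) (D : Dg)
    (h1 : (e 0 : ℤ) + e 1 - e 2 + e 6 + e 7 = D.1) (h2 : (e 2 : ℤ) + e 3 - e 6 - e 7 = D.2.1)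
    (h3 : (e 4 : ℤ) + e 5 + e 6 + e 7 = D.2.2) : ∑ i, e i • gdeg i = D := by
  obtain ⟨c1, c2, c3⟩ := QS3_gcoord e _ rfl
  exact Prod.ext (c1.symm.trans h1) (Prod.ext (c2.symm.trans h2) (c3.symm.trans h3))

private theorem QS3_ycoord (e : Fin 8 → ℕ) (D : Dg) (he : ∑ i, e i • ydeg i = D) :
    ((e 0 : ℤ) + e 1 - e 2 = D.1) ∧ ((e 2 : ℤ) + e 3 = D.2.1) ∧
      ((e 4 : ℤ) + e 5 + e 6 + e 7 = D.2.2) := by
  obtain ⟨h1, h2, h3⟩ := QS3_coord ydeg e D he
  rw [Fin.sum_univ_eight] at h1 h2 h3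
  simp only [ydeg, Matrix.cons_val] at h1 h2 h3
  refine ⟨by linarith, by linarith, by linarith⟩

private theorem QS3_RX_neg (a b : ℤ) : Module.finrank k (RX k (a, b, -1)) = 0 := by
  have h1 : RX k (a, b, -1) = ⊥ := by
    unfold RX
    rw [Submodule.span_eq_bot]
    rintro y ⟨e, he, rfl⟩
    have h2 := (QS3_gcoord e _ he).2.2
    have h3 : (e 4 : ℤ) + e 5 + e 6 + e 7 = -1 := h2
    omega
  rw [h1]
  exact finrank_bot k (PP k)

/-- The exponents. -/
private def QS3_phi (n m : ℕ) (x : Σ i : Fin (m + 1), Fin (n + i.1 + 1)) : Fin 6 →₀ ℕ :=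
  Finsupp.single 0 x.2.1 + Finsupp.single 1 (n + x.1.1 - x.2.1) + Finsupp.single 2 x.1.1 +
    Finsupp.single 3 (m - x.1.1)

private theorem QS3_phi_inj (n m : ℕ) : Function.Injective (QS3_phi n m) := by
  rintro ⟨⟨i, hi⟩, ⟨a, ha⟩⟩ ⟨⟨i', hi'⟩, ⟨a', ha'⟩⟩ h
  have h0 := DFunLike.congr_fun h 0
  have h2 := DFunLike.congr_fun h 2
  simp only [QS3_phi, Finsupp.add_apply, Finsupp.single_apply] at h0 h2
  norm_num [Fin.ext_iff] at h0 h2
  subst h2
  subst h0
  rfl

private theorem QS3_RX_nat (n m : ℕ) : Module.finrank k (RX k ((n : ℤ), (m : ℤ), 0)) =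
    ∑ i : Fin (m + 1), (n + i.1 + 1) := by
  have h1 : RX k ((n : ℤ), (m : ℤ), 0) = Submodule.span k
      (Set.range fun x => (MvPolynomial.monomial (QS3_phi n m x) 1 : PP k)) := by
    unfold RX
    refine congrArg (Submodule.span k) ?_
    ext y
    constructor
    · rintro ⟨e, he, rfl⟩
      obtain ⟨c1, c2, c3⟩ := QS3_gcoord e _ he
      have c1' : (e 0 : ℤ) + e 1 - e 2 + e 6 + e 7 = n := c1
      have c2' : (e 2 : ℤ) + e 3 - e 6 - e 7 = m := c2
      have c3' : (e 4 : ℤ) + e 5 + e 6 + e 7 = 0 := c3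
      have h4 : e 4 = 0 := by omega
      have h5 : e 5 = 0 := by omega
      have h6 : e 6 = 0 := by omega
      have h7 : e 7 = 0 := by omega
      refine ⟨⟨⟨e 2, by omega⟩, ⟨e 0, by show e 0 < n + e 2 + 1; omega⟩⟩, ?_⟩
      rw [Fin.prod_univ_eight, h4, h5, h6, h7]
      simp only [pow_zero, mul_one]
      have g1 : n + e 2 - e 0 = e 1 := by omega
      have g2 : m - e 2 = e 3 := by omega
      show (MvPolynomial.monomial (QS3_phi n m _) 1 : PP k) =
        (u0 k) ^ e 0 * (u1 k) ^ e 1 * (la k) ^ e 2 * (mu k) ^ e 3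
      unfold QS3_phi u0 u1 la mu
      simp only [MvPolynomial.X_pow_eq_monomial, MvPolynomial.monomial_mul, mul_one, g1, g2]
    · rintro ⟨⟨⟨i, hi⟩, ⟨a, ha⟩⟩, rfl⟩
      have ha' : a < n + i + 1 := ha
      refine ⟨![a, n + i - a, i, m - i, 0, 0, 0, 0], ?_, ?_⟩
      · refine QS3_of_gcoord _ _ ?_ ?_ ?_
        · show ((a : ℕ) : ℤ) + ((n + i - a : ℕ) : ℤ) - ((i : ℕ) : ℤ) + ((0 : ℕ) : ℤ) +
            ((0 : ℕ) : ℤ) = (n : ℤ)
          omega
        · show ((i : ℕ) : ℤ) + ((m - i : ℕ) : ℤ) - ((0 : ℕ) : ℤ) - ((0 : ℕ) : ℤ) = (m : ℤ)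
          omega
        · show ((0 : ℕ) : ℤ) + ((0 : ℕ) : ℤ) + ((0 : ℕ) : ℤ) + ((0 : ℕ) : ℤ) = (0 : ℤ)
          omega
      · rw [Fin.prod_univ_eight]
        simp only [Matrix.cons_val, pow_zero, mul_one]
        show (MvPolynomial.monomial (QS3_phi n m _) 1 : PP k) =
          (u0 k) ^ a * (u1 k) ^ (n + i - a) * (la k) ^ i * (mu k) ^ (m - i)
        unfold QS3_phi u0 u1 la mu
        simp only [MvPolynomial.X_pow_eq_monomial, MvPolynomial.monomial_mul, mul_one]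
  rw [h1]
  have h2 : LinearIndependent k
      (fun x => (MvPolynomial.monomial (QS3_phi n m x) 1 : PP k)) := by
    have h3 := (MvPolynomial.basisMonomials (Fin 6) k).linearIndependent.comp _ (QS3_phi_inj n m)
    rw [MvPolynomial.coe_basisMonomials] at h3
    exact h3
  rw [finrank_span_eq_card h2, Fintype.card_sigma]
  refine Finset.sum_congr rfl fun i _ => ?_
  rw [Fintype.card_fin]

private theorem QS3_RY_one : Module.finrank k (RY k (1, 0, 0)) = 2 := by
  have h1 : RY k (1, 0, 0) = Submodule.span k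
      (Set.range ((MvPolynomial.X : Fin 8 → PY k) ∘ ![0, 1])) := by
    unfold RY
    refine congrArg (Submodule.span k) ?_
    ext y
    constructor
    · rintro ⟨e, he, rfl⟩
      obtain ⟨c1, c2, c3⟩ := QS3_ycoord e _ he
      have c1' : (e 0 : ℤ) + e 1 - e 2 = 1 := c1
      have c2' : (e 2 : ℤ) + e 3 = 0 := c2
      have c3' : (e 4 : ℤ) + e 5 + e 6 + e 7 = 0 := c3
      have h2 : e 2 = 0 := by omega
      have h3 : e 3 = 0 := by omega
      have h4 : e 4 = 0 := by omega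
      have h5 : e 5 = 0 := by omega
      have h6 : e 6 = 0 := by omega
      have h7 : e 7 = 0 := by omega
      rw [Fin.prod_univ_eight, h2, h3, h4, h5, h6, h7]
      simp only [pow_zero, mul_one]
      have h8 : (e 0 = 1 ∧ e 1 = 0) ∨ (e 0 = 0 ∧ e 1 = 1) := by omega
      rcases h8 with ⟨h8, h9⟩ | ⟨h8, h9⟩
      · refine ⟨0, ?_⟩
        rw [h8, h9]
        simp
      · refine ⟨1, ?_⟩
        rw [h8, h9]
        simp
    · rintro ⟨j, rfl⟩
      fin_cases j
      · refine ⟨![1, 0, 0, 0, 0, 0, 0, 0], by decide, ?_⟩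
        rw [Fin.prod_univ_eight]
        simp
      · refine ⟨![0, 1, 0, 0, 0, 0, 0, 0], by decide, ?_⟩
        rw [Fin.prod_univ_eight]
        simp
  rw [h1]
  have h2 : LinearIndependent k ((MvPolynomial.X : Fin 8 → PY k) ∘ ![0, 1]) :=
    (MvPolynomial.linearIndependent_X (Fin 8) k).comp _ (by decide)
  rw [finrank_span_eq_card h2, Fintype.card_fin]

private theorem QS3_finrank_X {i j : Fin 24} (h1 : ¬ j < i) (h2 : ¬ j.val < 16) :
    Module.finrank k (QH k i j) = Module.finrank k (RX k (qdeg j - qdeg i)) := by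
  unfold QH
  rw [if_neg h1, if_neg h2]
  exact (Submodule.equivMapOfInjective _ LinearMap.inr_injective _).finrank_eq.symm

private theorem QS3_finrank_Y {i j : Fin 24} (h1 : ¬ j < i) (h2 : j.val < 16) :
    Module.finrank k (QH k i j) = Module.finrank k (RY k (qdeg j - qdeg i)) := by
  unfold QH
  rw [if_neg h1, if_pos h2]
  refine (Submodule.equivMapOfInjective _ ?_ _).finrank_eq.symm
  intro x y h
  exact congrArg Prod.fst h

/-- The endomorphisms are the scalars. -/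
theorem QH_self (i : Fin 24) (f : PY k × PP k) (hf : f ∈ QH k i i) : ∃ c : k, f = c • Qe k i := by
  unfold QH at hf
  rw [if_neg (lt_irrefl i), sub_self] at hf
  unfold Qe
  split_ifs at hf ⊢ with h
  · obtain ⟨s, hs, rfl⟩ := hf
    obtain ⟨c, rfl⟩ := QS3_RY_zero k s hs
    refine ⟨c, ?_⟩
    show (c • (1 : PY k), res k (c • 1)) = (c • (1 : PY k), c • (1 : PP k))
    rw [map_smul, map_one]
  · obtain ⟨s, hs, rfl⟩ := hf
    obtain ⟨c, rfl⟩ := QS3_RX_zero k s hs
    refine ⟨c, ?_⟩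
    show ((0 : PY k), c • (1 : PP k)) = (c • (0 : PY k), c • (1 : PP k))
    rw [smul_zero]

theorem QH_numbers12_13 : Module.finrank k (QH k 12 13) = 2 := by
  rw [QS3_finrank_Y k (by decide) (by decide),
    show qdeg 13 - qdeg 12 = (1, 0, 0) from by decide]
  exact QS3_RY_one k

theorem QH_numbers12 (j : Fin 6) : (Module.finrank k (QH k 12 ⟨18 + j.1, by omega⟩) : ℤ) =
    ![0, 0, 7, 9, 12, 15] j := by
  have key : ∀ (l : Fin 24) (D : Dg), ¬ l < 12 → ¬ l.val < 16 → qdeg l - qdeg 12 = D →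
      Module.finrank k (QH k 12 l) = Module.finrank k (RX k D) := by
    intro l D h1 h2 h3
    rw [QS3_finrank_X k h1 h2, h3]
  fin_cases j
  · show (Module.finrank k (QH k 12 18) : ℤ) = 0
    rw [key 18 (1, 2, -1) (by decide) (by decide) (by decide), QS3_RX_neg]
    rfl
  · show (Module.finrank k (QH k 12 19) : ℤ) = 0
    rw [key 19 (2, 2, -1) (by decide) (by decide) (by decide), QS3_RX_neg]
    rfl
  · show (Module.finrank k (QH k 12 20) : ℤ) = 7
    rw [key 20 (((2 : ℕ) : ℤ), ((1 : ℕ) : ℤ), 0) (by decide) (by decide) (by decide), QS3_RX_nat]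
    decide
  · show (Module.finrank k (QH k 12 21) : ℤ) = 9
    rw [key 21 (((3 : ℕ) : ℤ), ((1 : ℕ) : ℤ), 0) (by decide) (by decide) (by decide), QS3_RX_nat]
    decide
  · show (Module.finrank k (QH k 12 22) : ℤ) = 12
    rw [key 22 (((2 : ℕ) : ℤ), ((2 : ℕ) : ℤ), 0) (by decide) (by decide) (by decide), QS3_RX_nat]
    decide
  · show (Module.finrank k (QH k 12 23) : ℤ) = 15
    rw [key 23 (((3 : ℕ) : ℤ), ((2 : ℕ) : ℤ), 0) (by decide) (by decide) (by decide), QS3_RX_nat]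
    decide

theorem QH_numbers13 (j : Fin 6) : (Module.finrank k (QH k 13 ⟨18 + j.1, by omega⟩) : ℤ) =
    ![0, 0, 5, 7, 9, 12] j := by
  have key : ∀ (l : Fin 24) (D : Dg), ¬ l < 13 → ¬ l.val < 16 → qdeg l - qdeg 13 = D →
      Module.finrank k (QH k 13 l) = Module.finrank k (RX k D) := by
    intro l D h1 h2 h3
    rw [QS3_finrank_X k h1 h2, h3]
  fin_cases j
  · show (Module.finrank k (QH k 13 18) : ℤ) = 0
    rw [key 18 (0, 2, -1) (by decide) (by decide) (by decide), QS3_RX_neg]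
    rfl
  · show (Module.finrank k (QH k 13 19) : ℤ) = 0
    rw [key 19 (1, 2, -1) (by decide) (by decide) (by decide), QS3_RX_neg]
    rfl
  · show (Module.finrank k (QH k 13 20) : ℤ) = 5
    rw [key 20 (((1 : ℕ) : ℤ), ((1 : ℕ) : ℤ), 0) (by decide) (by decide) (by decide), QS3_RX_nat]
    decide
  · show (Module.finrank k (QH k 13 21) : ℤ) = 7
    rw [key 21 (((2 : ℕ) : ℤ), ((1 : ℕ) : ℤ), 0) (by decide) (by decide) (by decide), QS3_RX_nat]
    decide
  · show (Module.finrank k (QH k 13 22) : ℤ) = 9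
    rw [key 22 (((1 : ℕ) : ℤ), ((2 : ℕ) : ℤ), 0) (by decide) (by decide) (by decide), QS3_RX_nat]
    decide
  · show (Module.finrank k (QH k 13 23) : ℤ) = 12
    rw [key 23 (((2 : ℕ) : ℤ), ((2 : ℕ) : ℤ), 0) (by decide) (by decide) (by decide), QS3_RX_nat]
    decide

end BO
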