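import Pool.Agent.Lib.MP_bd3808_ag.BO.MatL
import Pool.Agent.Lib.MP_bd3808_ag.BO.KB
import Pool.Agent.Lib.MP_bd3808_ag.BO.QSys
import Pool.Agent.Lib.MP_bd3808_ag.Mg.G004

/-!
# TASK QI0: the category `K^b(add 𝒬)` and its 24 objects

`qmap` is the composite of the linear maps of the fully faithful functors `Mat_.embedding` and `Kb.single`; everything follows from
`Functor.map_comp`, `Functor.map_id`, `Functor.map_add`, `Functor.map_smul`, full faithfulness and `Kb.hom_single_eq_zero`.
-/

set_option autoImplicit false

noncomputable section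

open CategoryTheory CategoryTheory.Limits CategoryTheory.Pretriangulated

namespace BO

universe w

variable (k : Type w) [Field k]

/-- The bounded homotopy category of the additive envelope of `𝒬`. -/
abbrev CC := Kb (Mat_ (QQ k))

/-- The 24 objects in `K^b(add 𝒬)`. -/
def qobj (i : Fin 24) : CC k := (Kb.single _).obj ((Mat_.embedding _).obj ⟨i⟩)

/-- The morphisms between the 24 objects given by elements of `QH`. -/
def qmap (i j : Fin 24) : QH k i j →ₗ[k] (qobj k i ⟶ qobj k j) where
  toFun f := (Kb.single _).map ((Mat_.embedding _).map ((QS k).hom f))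
  map_add' f g := by
    have h : (QS k).hom (f + g) = (QS k).hom f + (QS k).hom g := rfl
    rw [h, Functor.map_add, Functor.map_add]
    rfl
  map_smul' c f := by
    have h : (QS k).hom (c • f) = c • (QS k).hom f := rfl
    rw [h, Functor.map_smul, Functor.map_smul]
    rfl

theorem qmap_bijective (i j : Fin 24) : Function.Bijective (qmap k i j) := by
  constructor
  · intro f g h
    have h1 : (QS k).hom f = (QS k).hom g :=
      (Mat_.embedding _).map_injective ((Kb.single _).map_injective h)
    exact h1
  · intro x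
    obtain ⟨y, hy⟩ := (Kb.single (Mat_ (QQ k))).map_surjective x
    obtain ⟨z, hz⟩ := (Mat_.embedding (QQ k)).map_surjective y
    refine ⟨z, ?_⟩
    change (Kb.single _).map ((Mat_.embedding _).map z) = x
    rw [hz, hy]

theorem qmap_one (i : Fin 24) : qmap k i i ⟨Qe k i, Qe_mem k i⟩ = 𝟙 _ := by
  change (Kb.single _).map ((Mat_.embedding _).map (𝟙 (⟨i⟩ : QQ k))) = 𝟙 _
  rw [CategoryTheory.Functor.map_id, CategoryTheory.Functor.map_id]

theorem qmap_mul (i j l : Fin 24) (f : QH k i j) (g : QH k j l) (h : QH k i l)
    (hh : (h : PY k × PP k) = f * g) : qmap k i l h = qmap k i j f ≫ qmap k j l g := by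
  have h1 : (QS k).hom h = (QS k).hom f ≫ (QS k).hom g := Subtype.ext hh
  change (Kb.single _).map ((Mat_.embedding _).map ((QS k).hom h)) =
    (Kb.single _).map ((Mat_.embedding _).map ((QS k).hom f)) ≫
      (Kb.single _).map ((Mat_.embedding _).map ((QS k).hom g))
  rw [h1, Functor.map_comp, Functor.map_comp]

theorem qobj_strong (i j : Fin 24) (n : ℤ) (hn : n ≠ 0) (f : qobj k i ⟶ (qobj k j)⟦n⟧) : f = 0 :=
  Kb.hom_single_eq_zero _ _ n hn f

end BO
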