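import Pool.Agent.Lib.MP_bd3808_ag.BO.QI3
import Pool.Agent.Lib.MP_bd3808_ag.BO.ChiStrong
import Pool.Agent.Lib.MP_bd3808_ag.Mg.G006
import Pool.Agent.Lib.MP_bd3808_ag.Mg.G009

/-!
# TASK QI1: the hypotheses of the abstract theorem for `K^b(add 𝒬)`

`qsixJ`: for `i ≤ j` the map `x ↦ (0,x)` (`QH` with `ix j ≥ 16`, `qdeg (ix j) = bdeg j`); for `j < i` both sides are `0` (`RX_eq_zero`). `one`, `mul`: `qmap_one`,
`qmap_mul`. `qsix_equiv`: `qphi_map`, `qsixJ_apply`. `qchi`: `chi_strong` with `e` = the conjugate of `qact` by `qmap`, then `kcls_conj`.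
`qsetup.sq`: `QH_det`; numbers: `QH_numbers…` (`kcls` has first component `finrank`).
-/

set_option autoImplicit false

noncomputable section

open CategoryTheory CategoryTheory.Limits CategoryTheory.Pretriangulated

namespace BO

universe w

variable (k : Type w) [Field k]

private theorem QI1_qdeg (j : Fin 6) : qdeg (ix j) = bdeg j := by
  fin_cases j <;> rfl

private theorem QI1_lt (i j : Fin 6) : ix j < ix i ↔ j < i := by
  rw [Fin.lt_def, Fin.lt_def]
  show 18 + j.1 < 18 + i.1 ↔ _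
  omega

private theorem QI1_not16 (j : Fin 6) : ¬ ((ix j).val < 16) := by
  show ¬ (18 + j.1 < 16)
  omega

private theorem QI1_deg (i j : Fin 6) (h : j < i) :
    (bdeg j - bdeg i).2.2 < 0 ∨ (bdeg j - bdeg i).2.1 + (bdeg j - bdeg i).2.2 < 0 ∨
      (bdeg j - bdeg i).1 + (bdeg j - bdeg i).2.1 < 0 := by
  revert h
  fin_cases i <;> fin_cases j <;> simp [bdeg]

private theorem QI1_QH (i j : Fin 6) (h : ¬ j < i) :
    QH k (ix i) (ix j) = (RX k (bdeg j - bdeg i)).map (LinearMap.inr k (PY k) (PP k)) := by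
  have h1 : ¬ ix j < ix i := fun h' => h ((QI1_lt i j).1 h')
  unfold QH
  rw [if_neg h1, if_neg (QI1_not16 j), QI1_qdeg, QI1_qdeg]

private theorem QI1_mem (i j : Fin 6) (x : RX k (bdeg j - bdeg i)) :
    ((LinearMap.inr k (PY k) (PP k)).comp (RX k (bdeg j - bdeg i)).subtype) x ∈
      QH k (ix i) (ix j) := by
  by_cases h : j < i
  · have h0 : x = 0 := Subtype.ext (RX_eq_zero k _ (QI1_deg i j h) _ x.2)
    rw [h0, map_zero]
    exact Submodule.zero_mem _
  · rw [QI1_QH k i j h]
    exact Submodule.mem_map_of_mem x.2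

private theorem QI1_bij (i j : Fin 6) : Function.Bijective
    (LinearMap.codRestrict (QH k (ix i) (ix j))
      ((LinearMap.inr k (PY k) (PP k)).comp (RX k (bdeg j - bdeg i)).subtype)
      (QI1_mem k i j)) := by
  constructor
  · intro x y hxy
    have h1 := congrArg (fun z : QH k (ix i) (ix j) => (z : PY k × PP k).2) hxy
    exact Subtype.ext h1
  · intro y
    by_cases h : j < i
    · have h1 : (y : PY k × PP k) ∈ (⊥ : Submodule k (PY k × PP k)) := by
        rw [← QH_of_lt k (ix i) (ix j) ((QI1_lt i j).2 h)]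
        exact y.2
      refine ⟨0, ?_⟩
      rw [map_zero]
      exact Subtype.ext ((Submodule.mem_bot k).1 h1).symm
    · have h1 : (y : PY k × PP k) ∈
          (RX k (bdeg j - bdeg i)).map (LinearMap.inr k (PY k) (PP k)) := by
        rw [← QI1_QH k i j h]
        exact y.2
      obtain ⟨x, hx, hxy⟩ := h1
      exact ⟨⟨x, hx⟩, Subtype.ext hxy⟩

/-- `R'(bdeg j - bdeg i)` is the Hom space of the last six objects (for `j < i` both are `0`, `RX_eq_zero`). -/
def qsixJ (i j : Fin 6) : RX k (bdeg j - bdeg i) ≃ₗ[k] QH k (ix i) (ix j) :=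
  LinearEquiv.ofBijective _ (QI1_bij k i j)

theorem qsixJ_apply (i j : Fin 6) (x : RX k (bdeg j - bdeg i)) :
    (qsixJ k i j x : PY k × PP k) = (0, (x : PP k)) := by
  rfl

/-- The last six objects. -/
def qsix : Six k (fun j => (qsys k).obj (ix j)) where
  J i j := (qsixJ k i j).trans (LinearEquiv.ofBijective (qmap k (ix i) (ix j)) (qmap_bijective k _ _))
  one i x hx := by
    show qmap k (ix i) (ix i) (qsixJ k i i x) = 𝟙 _
    have hQ : Qe k (ix i) = (0, 1) := if_neg (QI1_not16 i)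
    have h1 : qsixJ k i i x = ⟨Qe k (ix i), Qe_mem k (ix i)⟩ := Subtype.ext (by
      show ((0, (x : PP k)) : PY k × PP k) = Qe k (ix i)
      rw [hx, hQ])
    rw [h1]
    exact qmap_one k (ix i)
  mul i j l x y z h := by
    show qmap k (ix i) (ix l) (qsixJ k i l z) =
      qmap k (ix i) (ix j) (qsixJ k i j x) ≫ qmap k (ix j) (ix l) (qsixJ k j l y)
    refine qmap_mul k _ _ _ _ _ _ ?_
    rw [qsixJ_apply, qsixJ_apply, qsixJ_apply, h, Prod.mk_mul_mk, mul_zero]
  strong i j n hn x := qobj_strong k _ _ n hn x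

private theorem QI1_m (i j : Fin 6) (p : PP k) (hp : p ∈ RX k (bdeg j - bdeg i)) :
    (qsix k).m i j p = qmap k (ix i) (ix j) (qsixJ k i j ⟨p, hp⟩) := by
  rw [Six.m_eq _ i j p hp]
  rfl

theorem qsix_equiv (t : kˣ) (i j : Fin 6) (p : PP k) (hp : p ∈ RX k (bdeg j - bdeg i)) :
    (qsix k).m i j (sig k t p) ≫ (qphi k t (ix j)).hom =
      (qphi k t (ix i)).hom ≫ (qsig k t).map ((qsix k).m i j p) := by
  have hp' : sig k t p ∈ RX k (bdeg j - bdeg i) := sig_mem k t _ p hp
  rw [QI1_m k i j p hp, QI1_m k i j _ hp']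
  have h := qphi_map k t (ix i) (ix j) (qsixJ k i j ⟨p, hp⟩)
  refine Eq.trans ?_ h
  refine congrArg (fun z => qmap k (ix i) (ix j) z ≫ (qphi k t (ix j)).hom) (Subtype.ext ?_)
  show (qsixJ k i j ⟨sig k t p, hp'⟩ : PY k × PP k) =
    prodE k (sigY k t) (sigE k t) (qsixJ k i j ⟨p, hp⟩ : PY k × PP k)
  rw [qsixJ_apply, qsixJ_apply]
  show (0, sig k t p) = (sigY k t 0, sigE k t p)
  rw [map_zero]
  rfl

/-- The automorphism of `QH k i j` given by `t`. -/
def qact (t : kˣ) (i j : Fin 24) : QH k i j ≃ₗ[k] QH k i j where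
  toFun f := ⟨_, sig_mem_QH k t i j f f.2⟩
  map_add' f g := by
    exact Subtype.ext (map_add (prodE k (sigY k t) (sigE k t)) (f : PY k × PP k) g)
  map_smul' c f := by
    exact Subtype.ext (map_smul (prodE k (sigY k t) (sigE k t)) c (f : PY k × PP k))
  invFun f := ⟨_, (QS.sig k t).symm_mem i j f f.2⟩
  left_inv f := by
    exact Subtype.ext ((prodE k (sigY k t) (sigE k t)).symm_apply_apply (f : PY k × PP k))
  right_inv f := by
    exact Subtype.ext ((prodE k (sigY k t) (sigE k t)).apply_symm_apply (f : PY k × PP k))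

theorem qchi (t : kˣ) (i j : Fin 24) :
    chi k (qsig k t) ⟨(qsys k).obj i, qphi k t i⟩ ⟨(qsys k).obj j, qphi k t j⟩ =
      kcls (qact k t i j) := by
  let f : QH k i j ≃ₗ[k] ((qsys k).obj i ⟶ (qsys k).obj j) :=
    LinearEquiv.ofBijective (qmap k i j) (qmap_bijective k i j)
  rw [chi_strong k (⟨(qsys k).obj i, qphi k t i⟩ : EqObj (qsig k t))
    ⟨(qsys k).obj j, qphi k t j⟩ (fun n hn x => qobj_strong k i j n hn x)
    ((f.symm.trans (qact k t i j)).trans f) (fun x => ?_)]
  · refine (kcls_conj (qact k t i j) _ f fun x => ?_).symm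
    show f (qact k t i j x) = f (qact k t i j (f.symm (f x)))
    rw [LinearEquiv.symm_apply_apply]
  · obtain ⟨y, rfl⟩ := f.surjective x
    show f (qact k t i j (f.symm (f y))) ≫ (qphi k t j).hom =
      (qphi k t i).hom ≫ (qsig k t).map (f y)
    rw [LinearEquiv.symm_apply_apply]
    exact qphi_map k t i j y

/-- The hypotheses of the abstract theorem. -/
def qsetup (t : kˣ) (ht : ∀ n : ℤ, t ^ n = 1 → n = 0) : Setup k (C := CC k) (qsig k t) where
  s := qsys k
  fin := qobj_fin k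
  D := qsix k
  φ := qphi k t
  t := t
  ht := ht
  equiv := qsix_equiv k t
  sq i j := by
    rw [qchi]
    show (2 : ℤ) • Additive.ofMul (LinearEquiv.det (qact k t i j)) = 0
    have h := QH_det k t i j (qact k t i j) fun f => rfl
    rw [two_zsmul, ← ofMul_mul, h, ofMul_one]
  num12_13 := by
    rw [qchi]
    show ((Module.finrank k (QH k 12 13) : ℕ) : ℤ) = 2
    rw [QH_numbers12_13]
    rfl
  num12 j := by
    rw [qchi]
    exact QH_numbers12 k j
  num13 j := by
    rw [qchi]
    exact QH_numbers13 k j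

theorem infinite_orbits_Q (t : kˣ) (ht : ∀ n : ℤ, t ^ n = 1 → n = 0) :
    Infinite (Orbits k (CC k) 24) :=
  (qsetup k t ht).infinite_orbits

end BO
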