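import Pool.Agent.Lib.MP_bd3808_ag.BO.QI0

/-!
# TASK QI2: the 24 objects are a full exceptional system

`qobj_exc`: `qmap_bijective`, `QH_self` (and `Qe ≠ 0` for the uniqueness), `qobj_strong`. `qobj_orth`: `n ≠ 0`: `qobj_strong`; `n = 0`: `X ≅ X[0]`, `QH_of_lt`.
`qobj_fin`: `QH_finite`. `qobj_full`: `Kb.generation`, `mat_induction` (`Kb.single` is additive: it maps zero objects to zero objects and `X ⊞ Y` to a
biproduct, which is the middle of a split triangle).
-/

set_option autoImplicit false

noncomputable section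

open CategoryTheory CategoryTheory.Limits CategoryTheory.Pretriangulated

namespace BO

universe w

variable (k : Type w) [Field k]

private theorem QI2_zero (i j : Fin 24) (f : QH k i j) (h : qmap k i j f = 0) : f = 0 :=
  (qmap_bijective k i j).1 (by rw [h, map_zero])

private theorem QI2_Qe_ne (i : Fin 24) : Qe k i ≠ 0 := by
  intro h
  have h1 := congrArg Prod.snd h
  unfold Qe at h1
  split_ifs at h1 <;> exact one_ne_zero h1

private theorem QI2_zeroIso (X Y : CC k) (f : X ⟶ Y⟦(0 : ℤ)⟧) :
    f = (f ≫ (shiftFunctorZero (CC k) ℤ).hom.app Y) ≫ (shiftFunctorZero (CC k) ℤ).inv.app Y := by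
  simp

theorem qobj_exc (i : Fin 24) : IsExceptional k (qobj k i) := by
  refine ⟨fun f => ?_, fun n hn f => qobj_strong k i i n hn f⟩
  obtain ⟨x, rfl⟩ := (qmap_bijective k i i).2 f
  obtain ⟨c, hc⟩ := QH_self k i x x.2
  have hx : x = c • ⟨Qe k i, Qe_mem k i⟩ := Subtype.ext hc
  refine ⟨c, ?_, fun b hb => ?_⟩
  · show qmap k i i x = c • 𝟙 _
    rw [hx, map_smul, qmap_one]
  · have hb' : qmap k i i x = b • 𝟙 _ := hb
    rw [hx, map_smul, qmap_one, ← sub_eq_zero, ← sub_smul, ← qmap_one, ← map_smul] at hb'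
    have h1 := congrArg Subtype.val (QI2_zero k i i _ hb')
    have h2 : (c - b) • Qe k i = 0 := h1
    rcases smul_eq_zero.1 h2 with h3 | h3
    · exact (sub_eq_zero.1 h3).symm
    · exact absurd h3 (QI2_Qe_ne k i)

theorem qobj_orth (i j : Fin 24) (h : i < j) (n : ℤ) (f : qobj k j ⟶ (qobj k i)⟦n⟧) : f = 0 := by
  by_cases hn : n = 0
  · subst hn
    obtain ⟨x, hx⟩ := (qmap_bijective k j i).2 (f ≫ (shiftFunctorZero (CC k) ℤ).hom.app (qobj k i))
    have h0 : x = 0 := by
      have h1 : (x : PY k × PP k) ∈ (⊥ : Submodule k (PY k × PP k)) := by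
        rw [← QH_of_lt k j i h]
        exact x.2
      exact Subtype.ext ((Submodule.mem_bot k).1 h1)
    rw [QI2_zeroIso k _ _ f, ← hx, h0, map_zero, zero_comp]
  · exact qobj_strong k j i n hn f

theorem qobj_fin (i j : Fin 24) : ExtFin k (qobj k i) (qobj k j) := by
  have hs : ∀ n : ℤ, n ≠ 0 → Subsingleton (qobj k i ⟶ (qobj k j)⟦n⟧) := fun n hn =>
    ⟨fun a b => by rw [qobj_strong k i j n hn a, qobj_strong k i j n hn b]⟩
  refine ⟨fun n => ?_, ?_⟩
  · by_cases hn : n = 0
    · subst hn
      have := QH_finite k i j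
      let L : QH k i j →ₗ[k] (qobj k i ⟶ (qobj k j)⟦(0 : ℤ)⟧) :=
        { toFun := fun x => qmap k i j x ≫ (shiftFunctorZero (CC k) ℤ).inv.app (qobj k j)
          map_add' := fun x y => by rw [map_add, Preadditive.add_comp]
          map_smul' := fun c x => by rw [map_smul, Linear.smul_comp, RingHom.id_apply] }
      refine Module.Finite.of_surjective L fun f => ?_
      obtain ⟨x, hx⟩ := (qmap_bijective k i j).2
        (f ≫ (shiftFunctorZero (CC k) ℤ).hom.app (qobj k j))
      refine ⟨x, ?_⟩
      show qmap k i j x ≫ (shiftFunctorZero (CC k) ℤ).inv.app (qobj k j) = f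
      rw [hx, ← QI2_zeroIso]
    · have := hs n hn
      exact Module.Finite.of_surjective (0 : k →ₗ[k] _) fun f => ⟨0, Subsingleton.elim _ _⟩
  · refine (Set.finite_singleton (0 : ℤ)).subset fun n hn => ?_
    by_contra h
    have := hs n h
    exact (not_nontrivial_iff_subsingleton.2 this) hn

theorem qobj_full (P : ObjectProperty (CC k)) (hP : P.IsTriangulated)
    (hP' : P.IsClosedUnderIsomorphisms) (h : ∀ i, P (qobj k i)) (K : CC k) : P K := by
  have hP1 := hP
  have hP2 := hP'
  refine Kb.generation P hP hP' (fun X => ?_) K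
  let P' : ObjectProperty (Mat_ (QQ k)) := fun X => P ((Kb.single _).obj X)
  have : P'.IsClosedUnderIsomorphisms :=
    ⟨fun {X Y} e hX => P.prop_of_iso ((Kb.single _).mapIso e) hX⟩
  refine mat_induction P' (fun X => h X.as) (fun X hX => ?_) (fun X Y hX hY => ?_) X
  · exact P.prop_of_isZero ((Kb.single (Mat_ (QQ k))).map_isZero hX)
  · have := preservesBinaryBiproducts_of_preservesBiproducts (Kb.single (Mat_ (QQ k)))
    have h1 : P ((Kb.single _).obj X ⊞ (Kb.single _).obj Y) :=
      P.ext_of_isTriangulatedClosed₂ _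
        (binaryBiproductTriangle_distinguished ((Kb.single _).obj X) ((Kb.single _).obj Y)) hX hY
    exact P.prop_of_iso ((Kb.single (Mat_ (QQ k))).mapBiprod X Y).symm h1

/-- The full exceptional system of the 24 objects. -/
def qsys : ExcSystem k (CC k) 24 where
  obj := qobj k
  exc := qobj_exc k
  orth := qobj_orth k
  full := qobj_full k

end BO
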