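import Pool.Agent.Lib.MP_bd3808_ag.BO.QI2

/-!
# TASK QI3: the autoequivalence and the structures

`qphi_map`: `embMap_naturality` for `(QS k).hom f` (mapped by `Kb.single`) and `Kb.mapSingle_naturality`; the functor `(QS.sig k t).func` maps `(QS k).hom f` to
`(QS k).hom ⟨Ψ f, _⟩` by definition.
-/

set_option autoImplicit false

noncomputable section

open CategoryTheory CategoryTheory.Limits CategoryTheory.Pretriangulated

namespace BO

universe w

variable (k : Type w) [Field k]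

/-- The autoequivalence of `K^b(add 𝒬)` given by `t`. -/
abbrev qsig (t : kˣ) : CC k ⥤ CC k := Kb.map (QS.sig k t).func.mapMat_

/-- The structure of the 24 objects. -/
def qphi (t : kˣ) (i : Fin 24) : qobj k i ≅ (qsig k t).obj (qobj k i) :=
  (Kb.single (Mat_ (QQ k))).mapIso (embMap (QS.sig k t).func ⟨i⟩) ≪≫
    Kb.mapSingle (QS.sig k t).func.mapMat_ ((Mat_.embedding (QQ k)).obj ⟨i⟩)

private theorem QI3_aux {A B : Type*} [Category A] [Category B] (S : A ⥤ B) {X Y X' Y' : A} {P Q : B}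
    (a : X ⟶ Y) (b : Y ⟶ Y') (c : X ⟶ X') (d : X' ⟶ Y') (h1 : a ≫ b = c ≫ d)
    (u : S.obj Y' ⟶ Q) (v : S.obj X' ⟶ P) (m : P ⟶ Q) (h2 : S.map d ≫ u = v ≫ m) :
    S.map a ≫ (S.map b ≫ u) = (S.map c ≫ v) ≫ m := by
  rw [← Category.assoc, ← S.map_comp, h1, S.map_comp, Category.assoc, h2, Category.assoc]

theorem qphi_map (t : kˣ) (i j : Fin 24) (f : QH k i j) :
    qmap k i j ⟨_, sig_mem_QH k t i j f f.2⟩ ≫ (qphi k t j).hom =
      (qphi k t i).hom ≫ (qsig k t).map (qmap k i j f) := by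
  exact QI3_aux (Kb.single (Mat_ (QQ k))) _ _ _ _
    (embMap_naturality (QS.sig k t).func ((QS k).hom f)) _ _ _
    (Kb.mapSingle_naturality (QS.sig k t).func.mapMat_
      ((Mat_.embedding (QQ k)).map ((QS k).hom f)))

end BO
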