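import Pool.Agent.Lib.MP_bd3808_ag.BO.Sub
import Pool.Agent.Lib.MP_bd3808_ag.Mg.G001

/-!
# TASK QS0: the category `𝒬` of the 24 objects

`Qe_mem`: `1 ∈ RY 0`, `1 ∈ RX 0`. `QH_mul`: cases. If `j < i` or `l < j` the product is `0`; otherwise `i ≤ j ≤ l`, degrees add;
`l < 16`: `(s, res s) (s', res s')`; `j < 16 ≤ l`: `(s, res s) (0, x) = (0, res s * x)` and `res` maps `RY D` to `RX D` (the generators of `k[Y]` go to
generators of `R'` or `la w₁`, `la w₂`); `16 ≤ j`: `(0,x) (0,y)`. `Qe_mul`, `mul_Qe`: cases. `RX_mul` (SigA), similarly for `RY`.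
-/

set_option autoImplicit false

noncomputable section

open CategoryTheory

namespace BO

universe w

variable (k : Type w) [Field k]

/-- Degrees `(f,H,h)` of the 24 objects. -/
def qdeg : Fin 24 → Dg :=
  ![(0,0,0), (1,0,0), (0,1,0), (1,1,0), (0,0,1), (1,0,1), (0,1,1), (1,1,1),
    (0,0,2), (1,0,2), (0,1,2), (1,1,2), (0,0,3), (1,0,3), (0,1,3), (1,1,3),
    (1,1,2), (2,1,2), (1,2,2), (2,2,2), (2,1,3), (3,1,3), (2,2,3), (3,2,3)]

/-- The Hom spaces: `k[Y]` of degree `qdeg j - qdeg i` (embedded by `s ↦ (s, res s)`) between the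
first 16 objects, `R'` of degree `qdeg j - qdeg i` if the target is one of the last eight, and `0`
for `j < i`. -/
def QH (i j : Fin 24) : Submodule k (PY k × PP k) :=
  if j < i then ⊥
  else if j.val < 16 then (RY k (qdeg j - qdeg i)).map (LinearMap.prod LinearMap.id (res k).toLinearMap)
  else (RX k (qdeg j - qdeg i)).map (LinearMap.inr k (PY k) (PP k))

/-- The units. -/
def Qe (i : Fin 24) : PY k × PP k := if i.val < 16 then (1, 1) else (0, 1)

private theorem QS0_RY_one : (1 : PY k) ∈ RY k 0 := by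
  apply Submodule.subset_span
  exact ⟨fun _ => 0, by simp, by simp⟩

private theorem QS0_RY_mul (D D' : Dg) (x y : PY k) (hx : x ∈ RY k D) (hy : y ∈ RY k D') :
    x * y ∈ RY k (D + D') := by
  have h := Submodule.mul_mem_mul hx hy
  rw [RY, RY, Submodule.span_mul_span] at h
  refine Submodule.span_le.2 ?_ h
  rintro _ ⟨a, ⟨e, he, rfl⟩, b, ⟨e', he', rfl⟩, rfl⟩
  apply Submodule.subset_span
  refine ⟨e + e', ?_, ?_⟩
  · rw [← he, ← he', ← Finset.sum_add_distrib]
    exact Finset.sum_congr rfl fun i _ => by rw [Pi.add_apply, add_smul]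
  · simp only [Pi.add_apply, pow_add]
    rw [Finset.prod_mul_distrib]

private theorem QS0_deg (e : Fin 8 → ℕ) :
    ∑ i, (![e 0, e 1, e 2 + e 5 + e 6, e 3, e 4, e 7, e 5, e 6] : Fin 8 → ℕ) i • gdeg i =
      ∑ i, e i • ydeg i := by
  rw [Fin.sum_univ_eight, Fin.sum_univ_eight]
  simp only [gdeg, ydeg]
  simp
  refine ⟨?_, ?_, ?_⟩ <;> ring

private theorem QS0_res_mem (D : Dg) (x : PY k) (hx : x ∈ RY k D) : res k x ∈ RX k D := by
  have h : RY k D ≤ (RX k D).comap (res k).toLinearMap := by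
    rw [RY, Submodule.span_le]
    rintro _ ⟨e, he, rfl⟩
    show res k (∏ i, (MvPolynomial.X i : PY k) ^ e i) ∈ RX k D
    apply Submodule.subset_span
    refine ⟨![e 0, e 1, e 2 + e 5 + e 6, e 3, e 4, e 7, e 5, e 6], ?_, ?_⟩
    · rw [QS0_deg, he]
    · rw [map_prod, Fin.prod_univ_eight, Fin.prod_univ_eight]
      simp only [map_pow, res, MvPolynomial.aeval_X, gen]
      simp
      ring
  exact h hx

theorem Qe_mem (i : Fin 24) : Qe k i ∈ QH k i i := by
  unfold Qe QH
  rw [if_neg (lt_irrefl i), sub_self]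
  split_ifs with h
  · exact ⟨1, QS0_RY_one k, by simp⟩
  · exact ⟨1, RX_one k, by simp⟩

theorem QH_mul (i j l : Fin 24) (f g : PY k × PP k) (hf : f ∈ QH k i j) (hg : g ∈ QH k j l) :
    f * g ∈ QH k i l := by
  unfold QH at hf
  split_ifs at hf with h1 h2
  · rw [Submodule.mem_bot] at hf
    rw [hf, zero_mul]
    exact zero_mem _
  · unfold QH at hg
    split_ifs at hg with h3 h4
    · rw [Submodule.mem_bot] at hg
      rw [hg, mul_zero]
      exact zero_mem _
    · have hil : ¬ l < i := not_lt.2 ((not_lt.1 h1).trans (not_lt.1 h3))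
      unfold QH
      rw [if_neg hil, if_pos h4]
      obtain ⟨a, ha, rfl⟩ := hf
      obtain ⟨b, hb, rfl⟩ := hg
      refine ⟨a * b, ?_, ?_⟩
      · have h5 := QS0_RY_mul k _ _ a b ha hb
        rwa [show qdeg j - qdeg i + (qdeg l - qdeg j) = qdeg l - qdeg i by abel] at h5
      · simp
    · have hil : ¬ l < i := not_lt.2 ((not_lt.1 h1).trans (not_lt.1 h3))
      unfold QH
      rw [if_neg hil, if_neg h4]
      obtain ⟨a, ha, rfl⟩ := hf
      obtain ⟨b, hb, rfl⟩ := hg
      refine ⟨res k a * b, ?_, ?_⟩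
      · have h5 := RX_mul k _ _ (res k a) b (QS0_res_mem k _ a ha) hb
        rwa [show qdeg j - qdeg i + (qdeg l - qdeg j) = qdeg l - qdeg i by abel] at h5
      · simp
  · unfold QH at hg
    split_ifs at hg with h3 h4
    · rw [Submodule.mem_bot] at hg
      rw [hg, mul_zero]
      exact zero_mem _
    · exact absurd h4 (by
        have h5 : j.val ≤ l.val := not_lt.1 h3
        omega)
    · have hil : ¬ l < i := not_lt.2 ((not_lt.1 h1).trans (not_lt.1 h3))
      unfold QH
      rw [if_neg hil, if_neg h4]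
      obtain ⟨a, ha, rfl⟩ := hf
      obtain ⟨b, hb, rfl⟩ := hg
      refine ⟨a * b, ?_, ?_⟩
      · have h5 := RX_mul k _ _ a b ha hb
        rwa [show qdeg j - qdeg i + (qdeg l - qdeg j) = qdeg l - qdeg i by abel] at h5
      · simp

theorem Qe_mul (i j : Fin 24) (f : PY k × PP k) (hf : f ∈ QH k i j) : Qe k i * f = f := by
  unfold Qe
  split_ifs with h
  · exact one_mul f
  · unfold QH at hf
    split_ifs at hf with h1 h2
    · rw [Submodule.mem_bot] at hf
      rw [hf, mul_zero]
    · exact absurd h2 (by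
        have h5 : i.val ≤ j.val := not_lt.1 h1
        omega)
    · obtain ⟨a, ha, rfl⟩ := hf
      simp

theorem mul_Qe (i j : Fin 24) (f : PY k × PP k) (hf : f ∈ QH k i j) : f * Qe k j = f := by
  unfold Qe
  split_ifs with h
  · exact mul_one f
  · unfold QH at hf
    rw [if_neg h] at hf
    split_ifs at hf with h1
    · rw [Submodule.mem_bot] at hf
      rw [hf, zero_mul]
    · obtain ⟨a, ha, rfl⟩ := hf
      simp

/-- The system of the 24 objects. -/
def QS : SubSys k (PY k × PP k) (Fin 24) where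
  H := QH k
  e := Qe k
  e_mem := Qe_mem k
  mul_mem {i j l f g} hf hg := QH_mul k i j l f g hf hg
  e_mul {i j f} hf := Qe_mul k i j f hf
  mul_e {i j f} hf := mul_Qe k i j f hf

/-- The category `𝒬` of the 24 objects. -/
abbrev QQ := (QS k).Cat

end BO
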