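import Pool.Agent.Lib.MP_bd3808_ag.BO.QS0

/-!
# TASK QS1: the torus and the involution on `𝒬`

`sigE`, `sigY`: `MvPolynomial.algHom_ext`. `sig_mem_QH`, `g_mem_QH`: `sig_mem` (SigA) and the analogue for `RY`; `res ∘ sigY = sig ∘ res`,
`res ∘ gY = gX ∘ res` (check on the variables, `MvPolynomial.algHom_ext`); `gX` permutes the generators `u₀ ↔ u₁`, `z₀ ↔ z₃`, `w₁ ↔ w₂`, fixes `la`, `mu`.
`g_sig_g`: on the variables, `wt` changes sign under the involution.
-/

set_option autoImplicit false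

noncomputable section

open CategoryTheory

namespace BO

universe w

variable (k : Type w) [Field k]

/-- The weights of the variables of `k[Y]`. -/
def wtY : Fin 8 → ℤ := ![-2, 2, 0, 0, 3, 1, -1, -3]

/-- The torus action on `k[u₀,…,om₂]` as an automorphism. -/
def sigE (t : kˣ) : PP k ≃ₐ[k] PP k :=
  AlgEquiv.ofAlgHom (sig k t) (sig k t⁻¹) (by
    refine MvPolynomial.algHom_ext fun i => ?_
    rw [AlgHom.comp_apply, AlgHom.id_apply]
    simp only [sig, MvPolynomial.aeval_X, map_mul, MvPolynomial.algHom_C,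
      MvPolynomial.algebraMap_eq]
    rw [← mul_assoc, ← MvPolynomial.C_mul, ← Units.val_mul, inv_zpow, inv_mul_cancel, Units.val_one,
      MvPolynomial.C_1, one_mul]) (by
    refine MvPolynomial.algHom_ext fun i => ?_
    rw [AlgHom.comp_apply, AlgHom.id_apply]
    simp only [sig, MvPolynomial.aeval_X, map_mul, MvPolynomial.algHom_C,
      MvPolynomial.algebraMap_eq]
    rw [← mul_assoc, ← MvPolynomial.C_mul, ← Units.val_mul, inv_zpow, mul_inv_cancel, Units.val_one,
      MvPolynomial.C_1, one_mul])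

/-- The torus action on `k[Y]` as an automorphism. -/
def sigY (t : kˣ) : PY k ≃ₐ[k] PY k :=
  AlgEquiv.ofAlgHom (MvPolynomial.aeval fun i => MvPolynomial.C ((t ^ wtY i : kˣ) : k) * MvPolynomial.X i)
    (MvPolynomial.aeval fun i => MvPolynomial.C ((t⁻¹ ^ wtY i : kˣ) : k) * MvPolynomial.X i) (by
    refine MvPolynomial.algHom_ext fun i => ?_
    rw [AlgHom.comp_apply, AlgHom.id_apply]
    simp only [MvPolynomial.aeval_X, map_mul, MvPolynomial.algHom_C,
      MvPolynomial.algebraMap_eq]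
    rw [← mul_assoc, ← MvPolynomial.C_mul, ← Units.val_mul, inv_zpow, inv_mul_cancel, Units.val_one,
      MvPolynomial.C_1, one_mul]) (by
    refine MvPolynomial.algHom_ext fun i => ?_
    rw [AlgHom.comp_apply, AlgHom.id_apply]
    simp only [MvPolynomial.aeval_X, map_mul, MvPolynomial.algHom_C,
      MvPolynomial.algebraMap_eq]
    rw [← mul_assoc, ← MvPolynomial.C_mul, ← Units.val_mul, inv_zpow, mul_inv_cancel, Units.val_one,
      MvPolynomial.C_1, one_mul])

/-- The involution `u₀ ↔ u₁`, `om₁ ↔ om₂` of `k[u₀,…,om₂]`. -/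
def gX : PP k ≃ₐ[k] PP k := MvPolynomial.renameEquiv k ((Equiv.swap 0 1).trans (Equiv.swap 4 5))

/-- The involution `u₀ ↔ u₁`, `z₀ ↔ z₃`, `z₁ ↔ z₂` of `k[Y]`. -/
def gY : PY k ≃ₐ[k] PY k :=
  MvPolynomial.renameEquiv k (((Equiv.swap 0 1).trans (Equiv.swap 4 7)).trans (Equiv.swap 5 6))

/-- The product of two algebra automorphisms. -/
def prodE (a : PY k ≃ₐ[k] PY k) (b : PP k ≃ₐ[k] PP k) : (PY k × PP k) ≃ₐ[k] (PY k × PP k) :=
  AlgEquiv.prodCongr a b

theorem QS1_sigY_X (t : kˣ) (i : Fin 8) :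
    sigY k t (MvPolynomial.X i) = ((t ^ wtY i : kˣ) : k) • (MvPolynomial.X i : PY k) := by
  show MvPolynomial.aeval (fun i => MvPolynomial.C ((t ^ wtY i : kˣ) : k) * MvPolynomial.X i)
    (MvPolynomial.X i) = _
  rw [MvPolynomial.aeval_X, MvPolynomial.smul_eq_C_mul]

theorem QS1_sigE_X (t : kˣ) (i : Fin 6) :
    sigE k t (MvPolynomial.X i) = ((t ^ wt i : kˣ) : k) • (MvPolynomial.X i : PP k) := by
  show MvPolynomial.aeval (fun i => MvPolynomial.C ((t ^ wt i : kˣ) : k) * MvPolynomial.X i)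
    (MvPolynomial.X i) = _
  rw [MvPolynomial.aeval_X, MvPolynomial.smul_eq_C_mul]

theorem QS1_gX_X (i : Fin 6) :
    gX k (MvPolynomial.X i) = MvPolynomial.X (((Equiv.swap 0 1).trans (Equiv.swap 4 5)) i) := by
  unfold gX
  rw [MvPolynomial.renameEquiv_apply, MvPolynomial.rename_X]

theorem QS1_gY_X (i : Fin 8) :
    gY k (MvPolynomial.X i) =
      MvPolynomial.X ((((Equiv.swap 0 1).trans (Equiv.swap 4 7)).trans (Equiv.swap 5 6)) i) := by
  unfold gY
  rw [MvPolynomial.renameEquiv_apply, MvPolynomial.rename_X]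

theorem QS1_sigY_mem (t : kˣ) (D : Dg) (x : PY k) (hx : x ∈ RY k D) : sigY k t x ∈ RY k D := by
  unfold RY at hx ⊢
  induction hx using Submodule.span_induction with
  | mem x hx =>
    obtain ⟨e, he, rfl⟩ := hx
    have h1 : sigY k t (∏ i, (MvPolynomial.X i : PY k) ^ e i) =
        (∏ i, ((t ^ wtY i : kˣ) : k) ^ e i) • ∏ i, (MvPolynomial.X i : PY k) ^ e i := by
      rw [map_prod, MvPolynomial.smul_eq_C_mul, map_prod, ← Finset.prod_mul_distrib]
      refine Finset.prod_congr rfl fun i _ => ?_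
      rw [map_pow, QS1_sigY_X, MvPolynomial.smul_eq_C_mul, mul_pow, MvPolynomial.C_pow]
    rw [h1]
    exact Submodule.smul_mem _ _ (Submodule.subset_span ⟨e, he, rfl⟩)
  | zero => rw [map_zero]; exact Submodule.zero_mem _
  | add x y _ _ hx hy => rw [map_add]; exact Submodule.add_mem _ hx hy
  | smul a x _ hx => rw [map_smul]; exact Submodule.smul_mem _ _ hx

theorem QS1_gY_mem (D : Dg) (x : PY k) (hx : x ∈ RY k D) : gY k x ∈ RY k D := by
  unfold RY at hx ⊢
  induction hx using Submodule.span_induction with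
  | mem x hx =>
    obtain ⟨e, he, rfl⟩ := hx
    refine Submodule.subset_span ⟨fun i =>
      e ((((Equiv.swap 0 1).trans (Equiv.swap 4 7)).trans (Equiv.swap 5 6)).symm i), ?_, ?_⟩
    · rw [← he]
      refine Fintype.sum_equiv
        (((Equiv.swap 0 1).trans (Equiv.swap 4 7)).trans (Equiv.swap 5 6)).symm _ _ fun i => ?_
      congr 1
      revert i
      decide
    · rw [map_prod]
      refine Fintype.prod_equiv
        (((Equiv.swap 0 1).trans (Equiv.swap 4 7)).trans (Equiv.swap 5 6)) _ _ fun i => ?_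
      show gY k ((MvPolynomial.X i : PY k) ^ e i) = _ ^ e (_)
      rw [map_pow, QS1_gY_X, Equiv.symm_apply_apply]
  | zero => rw [map_zero]; exact Submodule.zero_mem _
  | add x y _ _ hx hy => rw [map_add]; exact Submodule.add_mem _ hx hy
  | smul a x _ hx => rw [map_smul]; exact Submodule.smul_mem _ _ hx

/-- The permutation of the generators. -/
def QS1_tau : Equiv.Perm (Fin 8) :=
  ((Equiv.swap 0 1).trans (Equiv.swap 4 5)).trans (Equiv.swap 6 7)

theorem QS1_u0 : gX k (u0 k) = u1 k := by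
  unfold u0 u1
  rw [QS1_gX_X, show ((Equiv.swap 0 1).trans (Equiv.swap 4 5)) (0 : Fin 6) = 1 from by decide]

theorem QS1_u1 : gX k (u1 k) = u0 k := by
  unfold u0 u1
  rw [QS1_gX_X, show ((Equiv.swap 0 1).trans (Equiv.swap 4 5)) (1 : Fin 6) = 0 from by decide]

theorem QS1_la : gX k (la k) = la k := by
  unfold la
  rw [QS1_gX_X, show ((Equiv.swap 0 1).trans (Equiv.swap 4 5)) (2 : Fin 6) = 2 from by decide]

theorem QS1_mu : gX k (mu k) = mu k := by
  unfold mu
  rw [QS1_gX_X, show ((Equiv.swap 0 1).trans (Equiv.swap 4 5)) (3 : Fin 6) = 3 from by decide]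

theorem QS1_om1 : gX k (om1 k) = om2 k := by
  unfold om1 om2
  rw [QS1_gX_X, show ((Equiv.swap 0 1).trans (Equiv.swap 4 5)) (4 : Fin 6) = 5 from by decide]

theorem QS1_om2 : gX k (om2 k) = om1 k := by
  unfold om1 om2
  rw [QS1_gX_X, show ((Equiv.swap 0 1).trans (Equiv.swap 4 5)) (5 : Fin 6) = 4 from by decide]

theorem QS1_z0 : gX k (z0 k) = z3 k := by
  unfold z0 z3
  simp only [map_mul, map_add, QS1_u0, QS1_u1, QS1_la, QS1_mu, QS1_om1, QS1_om2]

theorem QS1_z3 : gX k (z3 k) = z0 k := by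
  unfold z0 z3
  simp only [map_mul, map_add, QS1_u0, QS1_u1, QS1_la, QS1_mu, QS1_om1, QS1_om2]

theorem QS1_w1 : gX k (w1 k) = w2 k := by
  unfold w1 w2
  simp only [map_mul, QS1_u0, QS1_u1, QS1_om1]
  ring

theorem QS1_w2 : gX k (w2 k) = w1 k := by
  unfold w1 w2
  simp only [map_mul, QS1_u0, QS1_u1, QS1_om2]
  ring

theorem QS1_gX_gen (i : Fin 8) : gX k (gen k i) = gen k (QS1_tau i) := by
  fin_cases i
  · show gX k (u0 k) = gen k (QS1_tau 0)
    rw [show QS1_tau 0 = 1 from by decide]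
    exact QS1_u0 k
  · show gX k (u1 k) = gen k (QS1_tau 1)
    rw [show QS1_tau 1 = 0 from by decide]
    exact QS1_u1 k
  · show gX k (la k) = gen k (QS1_tau 2)
    rw [show QS1_tau 2 = 2 from by decide]
    exact QS1_la k
  · show gX k (mu k) = gen k (QS1_tau 3)
    rw [show QS1_tau 3 = 3 from by decide]
    exact QS1_mu k
  · show gX k (z0 k) = gen k (QS1_tau 4)
    rw [show QS1_tau 4 = 5 from by decide]
    exact QS1_z0 k
  · show gX k (z3 k) = gen k (QS1_tau 5)
    rw [show QS1_tau 5 = 4 from by decide]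
    exact QS1_z3 k
  · show gX k (w1 k) = gen k (QS1_tau 6)
    rw [show QS1_tau 6 = 7 from by decide]
    exact QS1_w1 k
  · show gX k (w2 k) = gen k (QS1_tau 7)
    rw [show QS1_tau 7 = 6 from by decide]
    exact QS1_w2 k

theorem QS1_gX_mem (D : Dg) (x : PP k) (hx : x ∈ RX k D) : gX k x ∈ RX k D := by
  unfold RX at hx ⊢
  induction hx using Submodule.span_induction with
  | mem x hx =>
    obtain ⟨e, he, rfl⟩ := hx
    refine Submodule.subset_span ⟨fun i => e (QS1_tau.symm i), ?_, ?_⟩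
    · rw [← he]
      refine Fintype.sum_equiv QS1_tau.symm _ _ fun i => ?_
      congr 1
      revert i
      decide
    · rw [map_prod]
      refine Fintype.prod_equiv QS1_tau _ _ fun i => ?_
      show gX k (gen k i ^ e i) = _ ^ e (_)
      rw [map_pow, QS1_gX_gen, Equiv.symm_apply_apply]
  | zero => rw [map_zero]; exact Submodule.zero_mem _
  | add x y _ _ hx hy => rw [map_add]; exact Submodule.add_mem _ hx hy
  | smul a x _ hx => rw [map_smul]; exact Submodule.smul_mem _ _ hx

theorem QS1_res0 : res k (MvPolynomial.X 0) = u0 k := by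
  unfold res
  rw [MvPolynomial.aeval_X]
  rfl

theorem QS1_res1 : res k (MvPolynomial.X 1) = u1 k := by
  unfold res
  rw [MvPolynomial.aeval_X]
  rfl

theorem QS1_res2 : res k (MvPolynomial.X 2) = la k := by
  unfold res
  rw [MvPolynomial.aeval_X]
  rfl

theorem QS1_res3 : res k (MvPolynomial.X 3) = mu k := by
  unfold res
  rw [MvPolynomial.aeval_X]
  rfl

theorem QS1_res4 : res k (MvPolynomial.X 4) = z0 k := by
  unfold res
  rw [MvPolynomial.aeval_X]
  rfl

theorem QS1_res5 : res k (MvPolynomial.X 5) = la k * w1 k := by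
  unfold res
  rw [MvPolynomial.aeval_X]
  rfl

theorem QS1_res6 : res k (MvPolynomial.X 6) = la k * w2 k := by
  unfold res
  rw [MvPolynomial.aeval_X]
  rfl

theorem QS1_res7 : res k (MvPolynomial.X 7) = z3 k := by
  unfold res
  rw [MvPolynomial.aeval_X]
  rfl

theorem QS1_wt (i : Fin 8) (n : ℤ) (h : wtY i = n) (t : kˣ) :
    sigY k t (MvPolynomial.X i) = ((t ^ n : kˣ) : k) • (MvPolynomial.X i : PY k) := by
  rw [QS1_sigY_X, h]

theorem QS1_res_sig (t : kˣ) (x : PY k) : res k (sigY k t x) = sig k t (res k x) := by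
  have h : (res k).comp (sigY k t : PY k →ₐ[k] PY k) = (sig k t).comp (res k) := by
    refine MvPolynomial.algHom_ext fun i => ?_
    rw [AlgHom.comp_apply, AlgHom.comp_apply]
    show res k (sigY k t (MvPolynomial.X i)) = sig k t (res k (MvPolynomial.X i))
    fin_cases i
    · show res k (sigY k t (MvPolynomial.X 0)) = sig k t (res k (MvPolynomial.X 0))
      rw [QS1_wt k 0 (-2) (by decide), map_smul, QS1_res0, sig_u0]
    · show res k (sigY k t (MvPolynomial.X 1)) = sig k t (res k (MvPolynomial.X 1))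
      rw [QS1_wt k 1 2 (by decide), map_smul, QS1_res1, sig_u1]
    · show res k (sigY k t (MvPolynomial.X 2)) = sig k t (res k (MvPolynomial.X 2))
      rw [QS1_wt k 2 0 (by decide), map_smul, QS1_res2, sig_la, zpow_zero, Units.val_one, one_smul]
    · show res k (sigY k t (MvPolynomial.X 3)) = sig k t (res k (MvPolynomial.X 3))
      rw [QS1_wt k 3 0 (by decide), map_smul, QS1_res3, sig_mu, zpow_zero, Units.val_one, one_smul]
    · show res k (sigY k t (MvPolynomial.X 4)) = sig k t (res k (MvPolynomial.X 4))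
      rw [QS1_wt k 4 3 (by decide), map_smul, QS1_res4, sig_z0]
    · show res k (sigY k t (MvPolynomial.X 5)) = sig k t (res k (MvPolynomial.X 5))
      rw [QS1_wt k 5 1 (by decide), map_smul, QS1_res5, map_mul, sig_la, sig_w1, mul_smul_comm]
    · show res k (sigY k t (MvPolynomial.X 6)) = sig k t (res k (MvPolynomial.X 6))
      rw [QS1_wt k 6 (-1) (by decide), map_smul, QS1_res6, map_mul, sig_la, sig_w2, mul_smul_comm]
    · show res k (sigY k t (MvPolynomial.X 7)) = sig k t (res k (MvPolynomial.X 7))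
      rw [QS1_wt k 7 (-3) (by decide), map_smul, QS1_res7, sig_z3]
  exact DFunLike.congr_fun h x

theorem QS1_gYi (i j : Fin 8)
    (h : (((Equiv.swap 0 1).trans (Equiv.swap 4 7)).trans (Equiv.swap 5 6)) i = j) :
    gY k (MvPolynomial.X i) = MvPolynomial.X j := by
  rw [QS1_gY_X, h]

theorem QS1_res_g (x : PY k) : res k (gY k x) = gX k (res k x) := by
  have h : (res k).comp (gY k : PY k →ₐ[k] PY k) = (gX k : PP k →ₐ[k] PP k).comp (res k) := by
    refine MvPolynomial.algHom_ext fun i => ?_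
    rw [AlgHom.comp_apply, AlgHom.comp_apply]
    show res k (gY k (MvPolynomial.X i)) = gX k (res k (MvPolynomial.X i))
    fin_cases i
    · show res k (gY k (MvPolynomial.X 0)) = gX k (res k (MvPolynomial.X 0))
      rw [QS1_gYi k 0 1 (by decide), QS1_res1, QS1_res0, QS1_u0]
    · show res k (gY k (MvPolynomial.X 1)) = gX k (res k (MvPolynomial.X 1))
      rw [QS1_gYi k 1 0 (by decide), QS1_res0, QS1_res1, QS1_u1]
    · show res k (gY k (MvPolynomial.X 2)) = gX k (res k (MvPolynomial.X 2))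
      rw [QS1_gYi k 2 2 (by decide), QS1_res2, QS1_la]
    · show res k (gY k (MvPolynomial.X 3)) = gX k (res k (MvPolynomial.X 3))
      rw [QS1_gYi k 3 3 (by decide), QS1_res3, QS1_mu]
    · show res k (gY k (MvPolynomial.X 4)) = gX k (res k (MvPolynomial.X 4))
      rw [QS1_gYi k 4 7 (by decide), QS1_res7, QS1_res4, QS1_z0]
    · show res k (gY k (MvPolynomial.X 5)) = gX k (res k (MvPolynomial.X 5))
      rw [QS1_gYi k 5 6 (by decide), QS1_res6, QS1_res5, map_mul, QS1_la, QS1_w1]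
    · show res k (gY k (MvPolynomial.X 6)) = gX k (res k (MvPolynomial.X 6))
      rw [QS1_gYi k 6 5 (by decide), QS1_res5, QS1_res6, map_mul, QS1_la, QS1_w2]
    · show res k (gY k (MvPolynomial.X 7)) = gX k (res k (MvPolynomial.X 7))
      rw [QS1_gYi k 7 4 (by decide), QS1_res4, QS1_res7, QS1_z3]
  exact DFunLike.congr_fun h x

theorem QS1_mem_QH (a : PY k ≃ₐ[k] PY k) (b : PP k ≃ₐ[k] PP k)
    (ha : ∀ D x, x ∈ RY k D → a x ∈ RY k D) (hb : ∀ D x, x ∈ RX k D → b x ∈ RX k D)
    (hab : ∀ x, res k (a x) = b (res k x)) (i j : Fin 24) (f : PY k × PP k) (hf : f ∈ QH k i j) :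
    prodE k a b f ∈ QH k i j := by
  unfold QH at hf ⊢
  split_ifs at hf ⊢ with h1 h2
  · rw [Submodule.mem_bot] at hf ⊢
    rw [hf, map_zero]
  · obtain ⟨s, hs, rfl⟩ := hf
    refine ⟨a s, ha _ _ hs, ?_⟩
    show (a s, res k (a s)) = (a s, b (res k s))
    rw [hab]
  · obtain ⟨s, hs, rfl⟩ := hf
    refine ⟨b s, hb _ _ hs, ?_⟩
    show ((0 : PY k), b s) = (a 0, b s)
    rw [map_zero]

theorem sig_mem_QH (t : kˣ) (i j : Fin 24) (f : PY k × PP k) (hf : f ∈ QH k i j) :
    prodE k (sigY k t) (sigE k t) f ∈ QH k i j := by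
  exact QS1_mem_QH k (sigY k t) (sigE k t) (fun D x hx => QS1_sigY_mem k t D x hx)
    (fun D x hx => sig_mem k t D x hx) (fun x => QS1_res_sig k t x) i j f hf

theorem g_mem_QH (i j : Fin 24) (f : PY k × PP k) (hf : f ∈ QH k i j) :
    prodE k (gY k) (gX k) f ∈ QH k i j := by
  exact QS1_mem_QH k (gY k) (gX k) (fun D x hx => QS1_gY_mem k D x hx)
    (fun D x hx => QS1_gX_mem k D x hx) (fun x => QS1_res_g k x) i j f hf

/-- The torus action as an automorphism of the system. -/
def QS.sig (t : kˣ) : (QS k).Auto where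
  Ψ := prodE k (sigY k t) (sigE k t)
  mem i j f hf := sig_mem_QH k t i j f hf
  symm_mem i j f hf := sig_mem_QH k t⁻¹ i j f hf
  e i := by
    show prodE k (sigY k t) (sigE k t) (Qe k i) = Qe k i
    unfold Qe
    split_ifs
    · show (sigY k t 1, sigE k t 1) = _
      rw [map_one, map_one]
    · show (sigY k t 0, sigE k t 1) = _
      rw [map_one, map_zero]

/-- Conjugation by the involution inverts the torus. -/
theorem g_sig_g (t : kˣ) (f : PY k × PP k) :
    prodE k (gY k) (gX k) (prodE k (sigY k t) (sigE k t) f) =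
      prodE k (sigY k t⁻¹) (sigE k t⁻¹) (prodE k (gY k) (gX k) f) := by
  have h1 : (gY k : PY k →ₐ[k] PY k).comp (sigY k t : PY k →ₐ[k] PY k) =
      (sigY k t⁻¹ : PY k →ₐ[k] PY k).comp (gY k : PY k →ₐ[k] PY k) := by
    refine MvPolynomial.algHom_ext fun i => ?_
    rw [AlgHom.comp_apply, AlgHom.comp_apply]
    show gY k (sigY k t (MvPolynomial.X i)) = sigY k t⁻¹ (gY k (MvPolynomial.X i))
    rw [QS1_sigY_X, map_smul, QS1_gY_X, QS1_sigY_X]
    congr 2
    rw [inv_zpow', ]
    congr 1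
    revert i
    decide
  have h2 : (gX k : PP k →ₐ[k] PP k).comp (sigE k t : PP k →ₐ[k] PP k) =
      (sigE k t⁻¹ : PP k →ₐ[k] PP k).comp (gX k : PP k →ₐ[k] PP k) := by
    refine MvPolynomial.algHom_ext fun i => ?_
    rw [AlgHom.comp_apply, AlgHom.comp_apply]
    show gX k (sigE k t (MvPolynomial.X i)) = sigE k t⁻¹ (gX k (MvPolynomial.X i))
    rw [QS1_sigE_X, map_smul, QS1_gX_X, QS1_sigE_X]
    congr 2
    rw [inv_zpow', ]
    congr 1
    revert i
    decide
  refine Prod.ext ?_ ?_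
  · exact DFunLike.congr_fun h1 f.1
  · exact DFunLike.congr_fun h2 f.2

end BO
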