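import Pool.Agent.Lib.MP_bd3808_ag.BO.QS1

/-!
# TASK QS2: finiteness and determinants

`QH_finite`: `RX k D`, `RY k D` are spanned by finitely many monomials: the functional `D ↦ D.1 + 2 D.2.1 + 3 D.2.2` is `≥ 1` on all `gdeg i`,
`ydeg i`, so the exponents are bounded. `QH_det`: `G = prodE (gY) (gX)` restricts to an automorphism of `QH k i j` (`g_mem_QH`; it is an involution up to
`renameEquiv` symm; use finite dimension for surjectivity) with `G ∘ e = e' ∘ G`, `e'` the restriction of the torus element `t⁻¹` (`g_sig_g`), i.e. `e' = e⁻¹`;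
so `det e = det e⁻¹` (`LinearEquiv.det_conj`).
-/

set_option autoImplicit false

noncomputable section

open CategoryTheory

namespace BO

universe w

variable (k : Type w) [Field k]

/-- The positive functional on the degrees. -/
private def QS2_phi : Dg →+ ℤ where
  toFun D := D.1 + 2 * D.2.1 + 3 * D.2.2
  map_zero' := by simp
  map_add' D E := by
    simp only [Prod.fst_add, Prod.snd_add]
    ring

private theorem QS2_fin (g : Fin 8 → Dg) (hg : ∀ i, 1 ≤ QS2_phi (g i)) (D : Dg) :
    {e : Fin 8 → ℕ | ∑ i, e i • g i = D}.Finite := by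
  refine (Set.finite_Icc (0 : Fin 8 → ℕ) (fun _ => (QS2_phi D).toNat)).subset fun e he => ?_
  refine ⟨fun _ => Nat.zero_le _, fun j => ?_⟩
  have h1 : ∑ i, (e i : ℤ) * QS2_phi (g i) = QS2_phi D := by
    rw [← (he : ∑ i, e i • g i = D), map_sum]
    refine Finset.sum_congr rfl fun i _ => ?_
    rw [map_nsmul, nsmul_eq_mul]
  have h2 : (e j : ℤ) * QS2_phi (g j) ≤ ∑ i, (e i : ℤ) * QS2_phi (g i) :=
    Finset.single_le_sum (f := fun i => (e i : ℤ) * QS2_phi (g i))
      (fun i _ => mul_nonneg (Int.natCast_nonneg _) (by have := hg i; omega)) (Finset.mem_univ j)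
  have h3 : (e j : ℤ) ≤ (e j : ℤ) * QS2_phi (g j) := by
    have := hg j
    have h4 : (0 : ℤ) ≤ e j := Int.natCast_nonneg _
    nlinarith
  show e j ≤ (QS2_phi D).toNat
  omega

private theorem QS2_RX (D : Dg) : Module.Finite k (RX k D) := by
  have h1 : {x : PP k | ∃ e : Fin 8 → ℕ, ∑ i, e i • gdeg i = D ∧ x = ∏ i, gen k i ^ e i}.Finite := by
    refine ((QS2_fin gdeg (by decide) D).image (fun e => ∏ i, gen k i ^ e i)).subset ?_
    rintro x ⟨e, he, rfl⟩
    exact ⟨e, he, rfl⟩
  exact FiniteDimensional.span_of_finite k h1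

private theorem QS2_RY (D : Dg) : Module.Finite k (RY k D) := by
  have h1 : {x : PY k | ∃ e : Fin 8 → ℕ, ∑ i, e i • ydeg i = D ∧
      x = ∏ i, (MvPolynomial.X i : PY k) ^ e i}.Finite := by
    refine ((QS2_fin ydeg (by decide) D).image
      (fun e => ∏ i, (MvPolynomial.X i : PY k) ^ e i)).subset ?_
    rintro x ⟨e, he, rfl⟩
    exact ⟨e, he, rfl⟩
  exact FiniteDimensional.span_of_finite k h1

/-- The Hom spaces are finite dimensional. -/
theorem QH_finite (i j : Fin 24) : Module.Finite k (QH k i j) := by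
  have h1 := QS2_RX k (qdeg j - qdeg i)
  have h2 := QS2_RY k (qdeg j - qdeg i)
  by_cases c1 : j < i
  · have h3 : QH k i j = ⊥ := by rw [QH, if_pos c1]
    rw [h3]
    infer_instance
  · by_cases c2 : j.val < 16
    · have h3 : QH k i j = (RY k (qdeg j - qdeg i)).map
          (LinearMap.prod LinearMap.id (res k).toLinearMap) := by rw [QH, if_neg c1, if_pos c2]
      rw [h3]
      exact Module.Finite.map _ _
    · have h3 : QH k i j = (RX k (qdeg j - qdeg i)).map (LinearMap.inr k (PY k) (PP k)) := by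
        rw [QH, if_neg c1, if_neg c2]
      rw [h3]
      exact Module.Finite.map _ _

/-- The determinants of the torus action are `±1`. -/
theorem QH_det (t : kˣ) (i j : Fin 24) (e : QH k i j ≃ₗ[k] QH k i j)
    (he : ∀ f, (e f : PY k × PP k) = prodE k (sigY k t) (sigE k t) f) :
    LinearEquiv.det e * LinearEquiv.det e = 1 := by
  have hfin := QH_finite k i j
  obtain ⟨g₀, hg₀⟩ : ∃ g₀ : QH k i j →ₗ[k] QH k i j,
      ∀ f, (g₀ f : PY k × PP k) = prodE k (gY k) (gX k) f :=
    ⟨(prodE k (gY k) (gX k)).toLinearMap.restrict (fun f hf => g_mem_QH k i j f hf), fun f => rfl⟩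
  have hinj : Function.Injective g₀ := by
    intro f f' h
    have h1 : prodE k (gY k) (gX k) (f : PY k × PP k) = prodE k (gY k) (gX k) f' := by
      rw [← hg₀, ← hg₀, h]
    exact Subtype.ext ((prodE k (gY k) (gX k)).injective h1)
  obtain ⟨g, hg⟩ : ∃ g : QH k i j ≃ₗ[k] QH k i j,
      ∀ f, (g f : PY k × PP k) = prodE k (gY k) (gX k) f :=
    ⟨LinearEquiv.ofInjectiveEndo g₀ hinj, fun f => hg₀ f⟩
  have hsymm : ∀ f : QH k i j, (e.symm f : PY k × PP k) =
      prodE k (sigY k t⁻¹) (sigE k t⁻¹) f := by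
    intro f
    have h1 : (f : PY k × PP k) = prodE k (sigY k t) (sigE k t) (e.symm f) := by
      rw [← he, e.apply_symm_apply]
    have h2 : ∀ x, prodE k (sigY k t⁻¹) (sigE k t⁻¹) x =
        (prodE k (sigY k t) (sigE k t)).symm x := fun x => rfl
    rw [h2, h1, AlgEquiv.symm_apply_apply]
  have hcomp : g * e = e⁻¹ * g := by
    refine LinearEquiv.ext fun f => Subtype.ext ?_
    change (g (e f) : PY k × PP k) = (e.symm (g f) : PY k × PP k)
    rw [hsymm, hg, hg, he, g_sig_g]
  have h3 := congrArg LinearEquiv.det hcomp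
  rw [map_mul, map_mul, map_inv, mul_comm] at h3
  have h4 := mul_right_cancel h3
  calc LinearEquiv.det e * LinearEquiv.det e = (LinearEquiv.det e)⁻¹ * LinearEquiv.det e := by
        rw [← h4]
    _ = 1 := inv_mul_cancel _

theorem QH_of_lt (i j : Fin 24) (h : j < i) : QH k i j = ⊥ := by
  simp [QH, h]

end BO
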