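import Mathlib

/-!
# `k`-linear categories from families of subspaces of an algebra
-/

set_option autoImplicit false
set_option linter.unusedVariables false

noncomputable section

open CategoryTheory

namespace BO

universe w v u

/-- Subspaces `H i j` of a commutative `k`-algebra `P`, closed under multiplication, with units. -/
structure SubSys (k : Type w) [Field k] (P : Type v) [CommRing P] [Algebra k P] (ι : Type u) where
  H : ι → ι → Submodule k P
  e : ι → P
  e_mem : ∀ i, e i ∈ H i i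
  mul_mem : ∀ {i j l : ι} {f g : P}, f ∈ H i j → g ∈ H j l → f * g ∈ H i l
  e_mul : ∀ {i j : ι} {f : P}, f ∈ H i j → e i * f = f
  mul_e : ∀ {i j : ι} {f : P}, f ∈ H i j → f * e j = f

variable {k : Type w} [Field k] {P : Type v} [CommRing P] [Algebra k P] {ι : Type u}

/-- The objects of the category of a `SubSys`: the indices. -/
structure SubSys.Cat (S : SubSys k P ι) where
  /-- the index -/
  as : ι

variable (S : SubSys k P ι)

instance : Category.{v} S.Cat where
  Hom X Y := S.H X.as Y.as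
  id X := ⟨S.e X.as, S.e_mem _⟩
  comp f g := ⟨f.1 * g.1, S.mul_mem f.2 g.2⟩
  id_comp f := Subtype.ext (S.e_mul f.2)
  comp_id f := Subtype.ext (S.mul_e f.2)
  assoc f g h := Subtype.ext (mul_assoc _ _ _)

/-- The morphism given by an element. -/
def SubSys.hom {i j : ι} (f : S.H i j) : (⟨i⟩ : S.Cat) ⟶ ⟨j⟩ := f

instance : Preadditive S.Cat where
  homGroup X Y := (S.H X.as Y.as).addCommGroup
  add_comp X Y Z f f' g := Subtype.ext (add_mul f.1 f'.1 g.1)
  comp_add X Y Z f g g' := Subtype.ext (mul_add f.1 g.1 g'.1)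

instance : Linear k S.Cat where
  homModule X Y := (S.H X.as Y.as).module
  smul_comp X Y Z c f g := Subtype.ext (smul_mul_assoc c f.1 g.1)
  comp_smul X Y Z f c g := Subtype.ext (mul_smul_comm c f.1 g.1)

/-- An automorphism of a `SubSys`. -/
structure SubSys.Auto where
  Ψ : P ≃ₐ[k] P
  mem : ∀ i j f, f ∈ S.H i j → Ψ f ∈ S.H i j
  symm_mem : ∀ i j f, f ∈ S.H i j → Ψ.symm f ∈ S.H i j
  e : ∀ i, Ψ (S.e i) = S.e i

variable {S}

/-- The inverse automorphism. -/
def SubSys.Auto.symm (Ψ : S.Auto) : S.Auto where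
  Ψ := Ψ.Ψ.symm
  mem := Ψ.symm_mem
  symm_mem := Ψ.mem
  e i := by rw [AlgEquiv.symm_apply_eq, Ψ.e]

/-- The functor given by an automorphism (identity on objects). -/
def SubSys.Auto.func (Ψ : S.Auto) : S.Cat ⥤ S.Cat where
  obj X := X
  map {X Y} f := ⟨Ψ.Ψ f.1, Ψ.mem _ _ _ f.2⟩
  map_id X := Subtype.ext (Ψ.e _)
  map_comp f g := Subtype.ext (map_mul Ψ.Ψ _ _)

instance (Ψ : S.Auto) : Ψ.func.Additive where
  map_add {X Y f g} := Subtype.ext (map_add Ψ.Ψ f.1 g.1)

instance (Ψ : S.Auto) : Functor.Linear k Ψ.func where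
  map_smul {X Y} f r := Subtype.ext (map_smul Ψ.Ψ r f.1)

instance (Ψ : S.Auto) : Ψ.func.Faithful where
  map_injective {X Y f g} h := Subtype.ext (Ψ.Ψ.injective (congrArg Subtype.val h))

instance (Ψ : S.Auto) : Ψ.func.Full where
  map_surjective {X Y} f := ⟨⟨Ψ.Ψ.symm f.1, Ψ.symm_mem _ _ _ f.2⟩,
    Subtype.ext (Ψ.Ψ.apply_symm_apply f.1)⟩

end BO
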